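import Pool.Agent.H46.KA.B3

/-!
KAC ADE, module B3b: laws of `Qp`, `mon`, `eta`, `lam`, the Q-system in `LL I`.

Everything follows from B1, B2, `uS_const`, `uS_rec`, `uS_zero`, `uS_one`.
`Qp a i k α = tm (k α e_i) * Tht a (rpw (uS a i k) α)`; `Df a i k l = Tht a (xv a i k l)`,
`xv a i k l = (if i = l then k else 0) + dlg a (uu a i k) l`.
Q-system: `uS_rec` multiplied by `t_i^(2(k+1))`; the product `∏_j Q_j^(a_ij)` has `t`-degree
`(k+1) ∑_j a_ij e_j`, and `X_i^(k+1)` on the left of `uS_rec` becomes `s_i^(k+1) t^(-(k+1) C e_i)`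
(`Tht_X`, `cart a j i = 2 δ - a j i`, symmetric).
-/

set_option autoImplicit false

namespace Pool.Agent.H46.KA

open scoped BigOperators
open MvPowerSeries Pool.Agent.H27.KAC

variable {I : Type} [Fintype I] [DecidableEq I]

private theorem B3b_Qp_one (a : I → I → ℕ) (i : I) (k : ℕ) :
    Qp a i k 1 = tm (fun j => if j = i then (k : ℚ) else 0) * Tht a (uS a i k) := by
  unfold Qp
  rw [rpw_one _ (uS_const a i k)]
  simp only [mul_one]

private theorem B3b_Qp_nat (a : I → I → ℕ) (i : I) (k n : ℕ) :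
    Qp a i k (n : ℚ) = tm (fun j => if j = i then (k : ℚ) * n else 0) * Tht a (uS a i k ^ n) := by
  unfold Qp
  rw [rpw_nat _ (uS_const a i k)]

private theorem B3b_tm_prod {ι : Type} (s : Finset ι) (d : ι → I → ℚ) :
    (∏ j ∈ s, tm (d j) : LL I) = tm (∑ j ∈ s, d j) := by
  classical
  induction s using Finset.induction_on with
  | empty => rw [Finset.prod_empty, Finset.sum_empty, tm_zero]
  | insert j s hj ih => rw [Finset.prod_insert hj, Finset.sum_insert hj, tm_add, ih]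

private theorem B3b_tm_pow (d : I → ℚ) (n : ℕ) : (tm d : LL I) ^ n = tm ((n : ℚ) • d) := by
  induction n with
  | zero => rw [pow_zero, Nat.cast_zero, zero_smul, tm_zero]
  | succ n ih => rw [pow_succ, ih, ← tm_add, Nat.cast_succ, add_smul, one_smul]

private theorem B3b_etE (a : I → I → ℕ) (i : I) (k : ℕ) :
    etE a k (fun j => if j = i then 1 else 0) =
      ∑ j, Finsupp.single (j, k) (-((cart a j i : ℤ) : ℚ)) := by
  unfold etE
  refine Finset.sum_congr rfl fun j _ => ?_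
  congr 1
  simp

private theorem B3b_fin {R : Type} [CommRing R] (T Y S P U : R) (h : T * S = U) :
    T * (Y * S * P) = Y * (U * P) := by
  rw [← h]; ring

private theorem B3b_c1 {R : Type} [CommRing R] (p q r z : R) (h : q * r = 1) :
    (q - z * p) * r = 1 - z * (p * r) := by
  linear_combination h

private theorem B3b_c2 {R : Type} [CommRing R] (x m l : R) : x * (m * -l) = -(x * m * l) := by
  ring

private theorem B3b_c3 {R : Type} [CommRing R] (e lm q2 q0 qm d2 d1 d0 : R)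
    (h : 0 - -(e * lm) = (1 * q2 * d2 * q0 + q2 * (1 * q0 * d0)) * qm + q2 * q0 * (-2 * qm * d1)) :
    q2 * q0 * qm * (d2 - 2 * d1 + d0) = e * lm := by
  linear_combination (-1 : R) * h

private theorem B3b_c4 {R : Type} [CommRing R] (e L S x p : R) (h : (1 - e) * x = e * L)
    (ih : x = S + p * x) (e' : R) (he : e' = p * e) : x = S + e' * L + e' * x := by
  rw [he]
  linear_combination ih + p * h

private theorem B3b_l1 (a : I → I → ℕ) (i : I) (k : ℕ) :
    Qp a i (k + 2) 1 * Qp a i k 1 =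
      tm (fun j => if j = i then ((k + 1 : ℕ) : ℚ) * (2 : ℕ) else 0) *
        Tht a (uS a i (k + 2) * uS a i k) := by
  have h6 : (fun j => if j = i then ((k + 2 : ℕ) : ℚ) else 0) + (fun j => if j = i then (k : ℚ) else 0) =
      fun j => if j = i then ((k + 1 : ℕ) : ℚ) * (2 : ℕ) else 0 := by
    funext j
    simp only [Pi.add_apply]
    split_ifs
    · push_cast; ring
    · ring
  rw [B3b_Qp_one, B3b_Qp_one, Tht_mul, ← h6, tm_add]
  exact mul_mul_mul_comm _ _ _ _

private theorem B3b_l2 (a : I → I → ℕ) (i : I) (k : ℕ) :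
    (∏ j, Qp a j (k + 1) (a i j : ℚ)) =
      tm (fun j => ((k + 1 : ℕ) : ℚ) * (a i j : ℚ)) * Tht a (∏ j, uS a j (k + 1) ^ (a i j)) := by
  rw [← ThtH_apply, map_prod]
  simp_rw [ThtH_apply, B3b_Qp_nat]
  rw [Finset.prod_mul_distrib, B3b_tm_prod]
  congr 2
  funext j
  rw [Finset.sum_apply, Finset.sum_ite_eq]
  simp

private theorem B3b_l3 (a : I → I → ℕ) (i : I) (k : ℕ) (F G : MvPowerSeries I ℚ) :
    Tht a (F - X i ^ (k + 1) * G) =
      Tht a F - (X i ^ (k + 1) * tm (((k + 1 : ℕ) : ℚ) • fun j => -((cart a j i : ℤ) : ℚ))) *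
        Tht a G := by
  rw [← ThtH_apply, map_sub, map_mul, map_pow (ThtH a) (X i), ThtH_apply, ThtH_apply, ThtH_apply,
    Tht_X, mul_pow, B3b_tm_pow]

private theorem B3b_l4 (a : I → I → ℕ) (hs : ∀ i j, a i j = a j i) (i : I) (k : ℕ) :
    tm (fun j => if j = i then ((k + 1 : ℕ) : ℚ) * (2 : ℕ) else 0) *
      (tm (((k + 1 : ℕ) : ℚ) • fun j => -((cart a j i : ℤ) : ℚ)) : LL I) =
      tm (fun j => ((k + 1 : ℕ) : ℚ) * (a i j : ℚ)) := by
  rw [← tm_add]
  congr 1
  funext j
  simp only [Pi.add_apply, Pi.smul_apply, smul_eq_mul, cart]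
  rw [hs i j]
  split_ifs
  · push_cast; ring
  · push_cast; ring

private theorem B3b_l5 (a : I → I → ℕ) (i : I) (k : ℕ) : Qp a i (k + 1) 2 =
    tm (fun j => if j = i then ((k + 1 : ℕ) : ℚ) * (2 : ℕ) else 0) * Tht a (uS a i (k + 1) ^ 2) := by
  have := B3b_Qp_nat a i (k + 1) 2
  rw [← this]
  norm_num

private theorem B3b_c5 {R : Type} [CommRing R] (T Y S P U F : R) (h : T * S = U) :
    T * (F - Y * S * P) = T * F - Y * (U * P) := by
  rw [← h]; ring

/-- the Q-system. -/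
theorem Qsys (a : I → I → ℕ) (hs : ∀ i j, a i j = a j i) (i : I) (k : ℕ) :
    Qp a i (k + 2) 1 * Qp a i k 1 = Qp a i (k + 1) 2 -
      X i ^ (k + 1) * ∏ j, Qp a j (k + 1) (a i j : ℚ) := by
  rw [B3b_l1, B3b_l5, B3b_l2, uS_rec, B3b_l3]
  exact B3b_c5 _ _ _ _ _ _ (B3b_l4 a hs i k)

/-- `η_{i,k+1} = s_i^{k+1} ∏_j Q_j^{a_ij} / Q_i^2`. -/
theorem eta_eq (a : I → I → ℕ) (hs : ∀ i j, a i j = a j i) (i : I) (k : ℕ) :
    eta a i k = X i ^ k * ((∏ j, Qp a j k (a i j : ℚ)) * Qp a i k (-2)) := by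
  unfold eta
  rw [B3b_etE, mon_sum]
  congr 1
  have h1 : ∀ j, mon a (Finsupp.single (j, k) (-((cart a j i : ℤ) : ℚ))) =
      Qp a j k (a i j : ℚ) * (if j = i then Qp a i k (-2) else 1) := by
    intro j
    rw [mon_single]
    by_cases hj : j = i
    · subst hj
      rw [if_pos rfl, ← Qp_add]
      congr 1
      simp only [cart, if_true]
      push_cast; ring
    · rw [if_neg hj, mul_one]
      congr 1
      simp only [cart, if_neg hj]
      rw [hs j i]
      push_cast; ring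
  rw [Finset.prod_congr rfl fun j _ => h1 j, Finset.prod_mul_distrib, Finset.prod_ite_eq']
  simp

theorem one_sub_eta (a : I → I → ℕ) (hs : ∀ i j, a i j = a j i) (i : I) (k : ℕ) :
    1 - eta a i (k + 1) = Qp a i (k + 2) 1 * Qp a i k 1 * Qp a i (k + 1) (-2) := by
  rw [Qsys a hs, eta_eq a hs, sub_mul]
  have h1 : Qp a i (k + 1) 2 * Qp a i (k + 1) (-2) = 1 := by
    rw [mul_comm]; exact Qp_neg_mul a i (k + 1) 2
  rw [← sub_mul]
  exact (B3b_c1 _ _ _ _ h1).symm

theorem th_eta (a : I → I → ℕ) (hs : ∀ i j, a i j = a j i) (l i : I) (k : ℕ) :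
    th l (eta a i k) = -(eta a i k * lam a i k l) := by
  have hX : th l ((X i : LL I) ^ k) = 0 := by
    rw [th_pow, th_X, mul_zero]
  unfold eta
  rw [th_mul, hX, zero_mul, zero_add, th_mon]
  have h1 : ∑ ik ∈ (etE a k (fun j => if j = i then 1 else 0)).support,
      qC ((etE a k (fun j => if j = i then 1 else 0)) ik) * Df a ik.1 ik.2 l = -lam a i k l := by
    have h2 : ∑ ik ∈ (etE a k (fun j => if j = i then 1 else 0)).support,
        qC ((etE a k (fun j => if j = i then 1 else 0)) ik) * Df a ik.1 ik.2 l =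
        (etE a k (fun j => if j = i then 1 else 0)).sum
          (fun ik α => qC α * Df a ik.1 ik.2 l) := rfl
    rw [h2, B3b_etE, ← Finsupp.sum_finsetSum_index]
    · unfold lam
      rw [← Finset.sum_neg_distrib]
      refine Finset.sum_congr rfl fun j _ => ?_
      rw [Finsupp.sum_single_index]
      · rw [qC_neg, neg_mul]
      · rw [qC_zero, zero_mul]
    · intro ik
      rw [qC_zero, zero_mul]
    · intro ik α β
      rw [qC_add, add_mul]
  rw [h1]
  exact B3b_c2 _ _ _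

/-- `D_{k+2} - 2 D_{k+1} + D_k = d log (1 - η)`, multiplied by `1 - η`. -/
theorem Df_rec (a : I → I → ℕ) (hs : ∀ i j, a i j = a j i) (l i : I) (k : ℕ) :
    (1 - eta a i (k + 1)) * (Df a i (k + 2) l - 2 * Df a i (k + 1) l + Df a i k l) =
      eta a i (k + 1) * lam a i (k + 1) l := by
  have h1 := congrArg (th l) (one_sub_eta a hs i k)
  rw [th_sub, th_one, th_eta a hs, th_mul, th_mul, th_Qp, th_Qp, th_Qp] at h1
  have h2 := one_sub_eta a hs i k
  have h3 : (qC (-2) : LL I) = -2 := by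
    have := qC_intCast (I := I) (-2)
    push_cast at this
    exact this
  rw [h3, qC_one] at h1
  rw [h2]
  exact B3b_c3 _ _ _ _ _ _ _ _ h1

/-- finite geometric expansion. -/
theorem Df_geom (a : I → I → ℕ) (hs : ∀ i j, a i j = a j i) (l i : I) (k M : ℕ) :
    Df a i (k + 2) l - 2 * Df a i (k + 1) l + Df a i k l =
      (∑ m ∈ Finset.Icc 1 M, eta a i (k + 1) ^ m * lam a i (k + 1) l) +
      eta a i (k + 1) ^ M * (Df a i (k + 2) l - 2 * Df a i (k + 1) l + Df a i k l) := by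
  have h1 := Df_rec a hs l i k
  induction M with
  | zero => simp
  | succ M ih =>
    rw [Finset.sum_Icc_succ_top (by omega)]
    exact B3b_c4 _ _ _ _ _ h1 ih _ (pow_succ _ _)

/-- `CT` kills high powers of `η`. -/
theorem CT_eta_pow (a : I → I → ℕ) (hs : ∀ i j, a i j = a j i) (γ : I → ℚ) (i : I) (k M : ℕ)
    (hM : ∀ n : I →₀ ℕ, (∀ j, (n j : ℚ) = γ j) → n i < (k + 1) * M) (F : LL I) :
    CT γ (eta a i (k + 1) ^ M * F) = 0 := by
  by_cases h : ∃ n : I →₀ ℕ, ∀ j, (n j : ℚ) = γ j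
  · obtain ⟨n, hn⟩ := h
    have hγ : γ = fun j => (n j : ℚ) := by
      funext j; exact (hn j).symm
    have hlt := hM n hn
    rw [hγ, CT_nat]
    have hd : (X i : LL I) ^ ((k + 1) * M) ∣ eta a i (k + 1) ^ M * F := by
      unfold eta
      rw [mul_pow, ← pow_mul, mul_assoc]
      exact Dvd.intro _ rfl
    rw [MvPowerSeries.X_pow_dvd_iff.mp hd n hlt]
    rfl
  · exact CT_of_not γ h _

end Pool.Agent.H46.KA
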