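import Pool.Agent.H46.KA.B1

/-!
KAC ADE, module B5: multilinearity of `CTd` in the columns and linearity in `F`.

`CTd γ F c = CT γ (F * det (c i l)_{l,i})`; use `Matrix.det_transpose` / `Matrix.det_updateCol_add` etc.
-/

set_option autoImplicit false

namespace Pool.Agent.H46.KA

open scoped BigOperators
open MvPowerSeries Pool.Agent.H27.KAC

variable {I : Type} [Fintype I] [DecidableEq I]

/-- the determinant of `cM c` as an alternating map of the columns. -/
theorem B5_det (c : I → Fm I) :
    (cM c).det = (Matrix.detRowAlternating (n := I) (R := LL I)) c := by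
  rw [← Matrix.det_transpose]
  rfl

/-- `qC` as a ring homomorphism. -/
noncomputable def B5_qCh : ℚ →+* LL I where
  toFun := qC
  map_one' := qC_one
  map_mul' := qC_mul
  map_zero' := qC_zero
  map_add' := qC_add

theorem B5_qCh_apply (r : ℚ) : (B5_qCh r : LL I) = qC r := rfl

theorem CTd_add (γ : I → ℚ) (F G : LL I) (c : I → Fm I) :
    CTd γ (F + G) c = CTd γ F c + CTd γ G c := by
  unfold CTd
  rw [add_mul, CT_add]

theorem CTd_sub (γ : I → ℚ) (F G : LL I) (c : I → Fm I) :
    CTd γ (F - G) c = CTd γ F c - CTd γ G c := by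
  unfold CTd
  rw [sub_mul, CT_sub]

theorem CTd_zero (γ : I → ℚ) (c : I → Fm I) : CTd γ 0 c = 0 := by
  unfold CTd
  rw [zero_mul, CT_zero]

theorem CTd_sum (γ : I → ℚ) {ι : Type} (s : Finset ι) (f : ι → LL I) (c : I → Fm I) :
    CTd γ (∑ i ∈ s, f i) c = ∑ i ∈ s, CTd γ (f i) c := by
  unfold CTd
  rw [Finset.sum_mul, CT_sum]

theorem CTd_qC (γ : I → ℚ) (r : ℚ) (F : LL I) (c : I → Fm I) :
    CTd γ (qC r * F) c = r * CTd γ F c := by
  unfold CTd
  rw [mul_assoc, CT_qC_mul]

theorem CTd_X_pow (γ : I → ℚ) (x : I) (n : ℕ) (F : LL I) (c : I → Fm I) :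
    CTd (fun i => γ i + if i = x then (n : ℚ) else 0) (X x ^ n * F) c = CTd γ F c := by
  unfold CTd
  rw [mul_assoc, CT_X_pow_mul]

theorem CTd_update_add (γ : I → ℚ) (F : LL I) (c : I → Fm I) (j : I) (v w : Fm I) :
    CTd γ F (Function.update c j (fun l => v l + w l)) =
      CTd γ F (Function.update c j v) + CTd γ F (Function.update c j w) := by
  unfold CTd
  rw [B5_det, B5_det, B5_det, ← CT_add, ← mul_add]
  have h : (fun l => v l + w l) = v + w := rfl
  rw [h, AlternatingMap.map_update_add]

/-- a factor moves from a column to `F`. -/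
theorem CTd_update_smul (γ : I → ℚ) (F G : LL I) (c : I → Fm I) (j : I) (v : Fm I) :
    CTd γ F (Function.update c j (fun l => G * v l)) = CTd γ (F * G) (Function.update c j v) := by
  unfold CTd
  rw [B5_det, B5_det]
  have h : (fun l => G * v l) = G • v := rfl
  rw [h, AlternatingMap.map_update_smul, smul_eq_mul, mul_assoc]

theorem CTd_update_zero (γ : I → ℚ) (F : LL I) (c : I → Fm I) (j : I) :
    CTd γ F (Function.update c j (fun _ => 0)) = 0 := by
  unfold CTd
  rw [B5_det]
  have h : (fun _ => 0 : Fm I) = 0 := rfl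
  rw [h, AlternatingMap.map_update_zero, mul_zero, CT_zero]

theorem CTd_update_qC (γ : I → ℚ) (F : LL I) (r : ℚ) (c : I → Fm I) (j : I) (v : Fm I) :
    CTd γ F (Function.update c j (fun l => qC r * v l)) = r * CTd γ F (Function.update c j v) := by
  rw [CTd_update_smul, mul_comm F, CTd_qC]

theorem CTd_update_sum (γ : I → ℚ) (F : LL I) (c : I → Fm I) (j : I) {ι : Type} (s : Finset ι)
    (v : ι → Fm I) :
    CTd γ F (Function.update c j (fun l => ∑ i ∈ s, v i l)) =
      ∑ i ∈ s, CTd γ F (Function.update c j (v i)) := by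
  classical
  induction s using Finset.induction_on with
  | empty => simpa using CTd_update_zero γ F c j
  | insert i s hi ih =>
    rw [Finset.sum_insert hi, ← ih, ← CTd_update_add]
    congr 2
    funext l
    rw [Finset.sum_insert hi]

theorem CTd_eq_zero (γ : I → ℚ) (F : LL I) (c : I → Fm I) (i j : I) (hij : i ≠ j)
    (h : c i = c j) : CTd γ F c = 0 := by
  unfold CTd
  rw [B5_det, AlternatingMap.map_eq_zero_of_eq _ c h hij, mul_zero, CT_zero]

/-- the same with coefficients in the ring. -/
theorem CTd_expand' (γ : I → ℚ) (F : LL I) {ι : Type} [DecidableEq ι] (s : I → Finset ι)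
    (r : I → ι → LL I) (v : I → ι → Fm I) :
    CTd γ F (fun i l => ∑ k ∈ s i, r i k * v i k l) =
      ∑ f ∈ Fintype.piFinset s, CTd γ (F * ∏ i, r i (f i)) (fun i => v i (f i)) := by
  unfold CTd
  rw [← CT_sum]
  congr 1
  have h : (fun i l => ∑ k ∈ s i, r i k * v i k l : I → Fm I) =
      fun i => ∑ k ∈ s i, r i k • v i k := by
    funext i l
    rw [Finset.sum_apply]
    rfl
  rw [h, B5_det]
  have h2 := (Matrix.detRowAlternating (n := I) (R := LL I)).toMultilinearMap.map_sum_finset
    (fun i k => r i k • v i k) s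
  rw [AlternatingMap.coe_multilinearMap] at h2
  rw [h2, Finset.mul_sum]
  refine Finset.sum_congr rfl (fun f _ => ?_)
  have h3 := (Matrix.detRowAlternating (n := I) (R := LL I)).toMultilinearMap.map_smul_univ
    (fun i => r i (f i)) (fun i => v i (f i))
  rw [AlternatingMap.coe_multilinearMap] at h3
  rw [h3, B5_det, smul_eq_mul, mul_assoc]

/-- full multilinear expansion: every column is a linear combination over a finite index set. -/
theorem CTd_expand (γ : I → ℚ) (F : LL I) {ι : Type} [DecidableEq ι] (s : I → Finset ι)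
    (r : I → ι → ℚ) (v : I → ι → Fm I) :
    CTd γ F (fun i l => ∑ k ∈ s i, qC (r i k) * v i k l) =
      ∑ f ∈ Fintype.piFinset s, (∏ i, r i (f i)) * CTd γ F (fun i => v i (f i)) := by
  rw [CTd_expand' γ F s (fun i k => qC (r i k)) v]
  refine Finset.sum_congr rfl (fun f _ => ?_)
  rw [← CTd_qC, mul_comm F]
  congr 2
  have := map_prod (B5_qCh (I := I)) (fun i => r i (f i)) Finset.univ
  simp only [B5_qCh_apply] at this
  exact this.symm

/-- linear change of columns: `c' i = ∑_j M j i c j` multiplies by `det M`. -/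
theorem CTd_lin (γ : I → ℚ) (F : LL I) (c : I → Fm I) (M : Matrix I I ℚ) :
    CTd γ F (fun i l => ∑ j, qC (M j i) * c j l) = M.det * CTd γ F c := by
  rw [← CTd_qC]
  unfold CTd
  congr 1
  have h1 : cM (fun i l => ∑ j, qC (M j i) * c j l : I → Fm I) =
      cM c * M.map (B5_qCh (I := I)) := by
    ext1 l i
    rw [Matrix.mul_apply]
    simp only [cM, Matrix.of_apply, Matrix.map_apply, B5_qCh_apply]
    exact Finset.sum_congr rfl (fun j _ => mul_comm _ _)
  have h2 : (M.map (B5_qCh (I := I))).det = qC M.det := by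
    have := RingHom.map_det (B5_qCh (I := I)) M
    rw [B5_qCh_apply] at this
    rw [this]
    rfl
  rw [h1, Matrix.det_mul, h2]
  ring

end Pool.Agent.H46.KA
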