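import Pool.Agent.H46.KA.B4
import Pool.Agent.H46.KA.B5

/-!
KAC ADE, module B4b: regularity, FACT 2.

`Rg x F`: all `t_x`-exponents of `F` are natural numbers.  FACT 1: `Qp a x k n` (`n` natural) and `Qp a j k α` (`j ≠ x`, any
`α`) are regular (`uS_fil_self`, `uS_fil_ne`, `rpw_Fil`; the `t_x`-exponent of the monomial of `Tht a F` at `β` is
`-(C β)_x`, and `Fil a x r F` says `(C β)_x ≤ r`).
The forms `Df a j k`, `j ≠ x`, and `Qp a x k 1 * Df a x k` (`= d Q`, `th_Qp` with α = 1) are regular (`RF`): the component at
`x` has positive exponents because `θ_x t_x^n = n t_x^n` (`xv_reg`, `xv_pole`, or directly).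
FACT 2 (`fact2`): row `x` of the matrix has entries in `Rg1 x`, all other entries are in `Rg x`, so the determinant is in
`Rg1 x` (Laplace expansion along row `x`, `Matrix.det_apply` is fine too) and has no term `t^0`.
`fact2_pole`: with poles `Df a x k`, `k ∈ P`, and the factor `∏_{k ∈ P} Q_{x,k}`: expand the determinant multilinearly in the
columns; a product of two columns with the same `Df a x k` vanishes, so each `Df a x k` occurs at most once and is
multiplied by its own factor `Q_{x,k}`.
-/

set_option autoImplicit false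

namespace Pool.Agent.H46.KA

open scoped BigOperators
open MvPowerSeries Pool.Agent.H27.KAC

variable {I : Type} [Fintype I] [DecidableEq I]

theorem B4b_Rg1_neg {x : I} {F : LL I} (hF : Rg1 x F) : Rg1 x (-F) := by
  intro β d h
  refine hF β d fun h0 => h ?_
  rw [map_neg, AddMonoidAlgebra.coeff_neg, Finsupp.neg_apply, h0, neg_zero]

theorem B4b_Rg1_sum {x : I} {ι : Type} (s : Finset ι) (f : ι → LL I) (h : ∀ i ∈ s, Rg1 x (f i)) :
    Rg1 x (∑ i ∈ s, f i) := by
  classical
  induction s using Finset.induction_on with
  | empty => rw [Finset.sum_empty]; exact Rg1_zero x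
  | insert a s ha ih =>
    rw [Finset.sum_insert ha]
    exact Rg1_add (h a (Finset.mem_insert_self _ _))
      (ih fun i hi => h i (Finset.mem_insert_of_mem hi))

theorem B4b_Rg1_det (x : I) (c : I → Fm I) (hc : ∀ i, RF x (c i)) : Rg1 x (cM c).det := by
  rw [Matrix.det_apply]
  refine B4b_Rg1_sum _ _ fun σ _ => ?_
  have h1 : Rg1 x (∏ i, cM c (σ i) i) := by
    have hi0 : σ (σ⁻¹ x) = x := by simp
    rw [← Finset.mul_prod_erase Finset.univ _ (Finset.mem_univ (σ⁻¹ x))]
    refine Rg1_mul ?_ (Rg_prod _ _ fun i _ => (hc i).1 (σ i))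
    have e : cM c (σ (σ⁻¹ x)) (σ⁻¹ x) = c (σ⁻¹ x) x := by
      rw [hi0]; rfl
    rw [e]
    exact (hc _).2
  rcases Int.units_eq_one_or (Equiv.Perm.sign σ) with h | h
  · rw [h, one_smul]; exact h1
  · rw [h, Units.neg_smul, one_smul]; exact B4b_Rg1_neg h1

theorem B4b_CT_Rg1 (γ : I → ℚ) {x : I} {F : LL I} (hF : Rg1 x F) : CT γ F = 0 := by
  unfold CT
  split_ifs with h
  · by_contra h0
    obtain ⟨n, hn⟩ := hF _ _ h0
    have : ((n : ℚ) + 1) = 0 := by rw [← hn]; rfl
    have h1 : (0 : ℚ) ≤ n := Nat.cast_nonneg n
    linarith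
  · rfl

theorem B4b_Rg1_mul' {x : I} {F G : LL I} (hF : Rg x F) (hG : Rg1 x G) : Rg1 x (F * G) := by
  rw [mul_comm]
  exact Rg1_mul hG hF

/-- FACT 2 -/
theorem fact2 (x : I) (γ : I → ℚ) (F : LL I) (hF : Rg x F) (c : I → Fm I) (hc : ∀ i, RF x (c i)) :
    CTd γ F c = 0 := by
  unfold CTd
  exact B4b_CT_Rg1 γ (B4b_Rg1_mul' hF (B4b_Rg1_det x c hc))

/-- scaling of the columns. -/
theorem B4b_scale (γ : I → ℚ) (F : LL I) (q : I → LL I) (c : I → Fm I) :
    CTd γ (F * ∏ i, q i) c = CTd γ F (fun i l => q i * c i l) := by
  unfold CTd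
  have h := Matrix.det_mul_row q (cM c)
  have e : Matrix.of (fun i j => q j * cM c i j) = cM (fun i l => q i * c i l) := by
    ext1 i j
    rfl
  rw [e] at h
  rw [h, mul_assoc]

/-- FACT 2 with poles. -/
theorem fact2_pole (a : I → I → ℕ) (hs : ∀ i j, a i j = a j i) (x : I) (hx : a x x = 0)
    (P : Finset ℕ) (γ : I → ℚ) (G : LL I) (hG : Rg x G) (r : I → Fm I) (hr : ∀ i, RF x (r i))
    (w : I → ℕ → LL I) (hw : ∀ i, ∀ k ∈ P, Rg x (w i k)) :
    CTd γ ((∏ k ∈ P, Qp a x k 1) * G) (fun i l => r i l + ∑ k ∈ P, w i k * Df a x k l) = 0 := by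
  classical
  -- the index set
  set S : Finset (Option ℕ) := Finset.insertNone P with hS
  set w' : I → Option ℕ → LL I := fun i o => o.elim 1 (fun k => w i k) with hw'
  set v' : I → Option ℕ → Fm I := fun i o => o.elim (r i) (fun k => Df a x k) with hv'
  set q : Option ℕ → LL I := fun o => o.elim 1 (fun k => Qp a x k 1) with hq
  have hcol : (fun i l => r i l + ∑ k ∈ P, w i k * Df a x k l) =
      (fun i l => ∑ o ∈ S, w' i o * v' i o l) := by
    funext i l
    rw [hS, Finset.sum_insertNone]
    simp only [hw', hv', Option.elim_none, Option.elim_some, one_mul]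
  rw [hcol, CTd_expand' γ _ (fun _ => S) w' v']
  refine Finset.sum_eq_zero fun f hf => ?_
  rw [Fintype.mem_piFinset] at hf
  by_cases hdup : ∃ i j, i ≠ j ∧ f i = f j ∧ f i ≠ none
  · obtain ⟨i, j, hij, hfij, hne⟩ := hdup
    refine CTd_eq_zero γ _ _ i j hij ?_
    obtain ⟨k, hk⟩ := Option.ne_none_iff_exists'.1 hne
    simp only [hv', ← hfij, hk, Option.elim_some]
  · have hinj : ∀ i j, f i = f j → f i ≠ none → i = j := by
      intro i j h1 h2
      by_contra h3
      exact hdup ⟨i, j, h3, h1, h2⟩
    have hmem : ∀ i k, f i = some k → k ∈ P := by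
      intro i k h
      have := hf i
      rw [h, hS, Finset.some_mem_insertNone] at this
      exact this
    set R : Option ℕ → LL I := fun o => if ∃ i, f i = o then 1 else q o with hR
    have hprod : ∏ k ∈ P, Qp a x k 1 = (∏ o ∈ S, R o) * ∏ i, q (f i) := by
      have e1 : ∏ k ∈ P, Qp a x k 1 = ∏ o ∈ S, q o := by
        rw [hS, Finset.prod_insertNone]
        simp only [hq, Option.elim_none, Option.elim_some, one_mul]
      have e2 : ∏ i, q (f i) = ∏ o ∈ S, ∏ i ∈ Finset.univ with f i = o, q (f i) :=
        (Finset.prod_fiberwise_of_maps_to (fun i _ => hf i) _).symm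
      rw [e1, e2, ← Finset.prod_mul_distrib]
      refine Finset.prod_congr rfl fun o _ => ?_
      cases o with
      | none =>
        have h1 : ∏ i ∈ Finset.univ with f i = none, q (f i) = 1 := by
          refine Finset.prod_eq_one fun i hi => ?_
          rw [(Finset.mem_filter.1 hi).2]
          rfl
        rw [h1, mul_one]
        have h2 : q none = 1 := rfl
        simp only [hR, h2, ite_self]
      | some k =>
        by_cases h : ∃ i, f i = some k
        · obtain ⟨i, hi⟩ := h
          have h1 : (Finset.univ.filter fun j => f j = some k) = {i} := by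
            ext j
            simp only [Finset.mem_filter, Finset.mem_univ, true_and, Finset.mem_singleton]
            constructor
            · intro hj
              exact hinj j i (hj.trans hi.symm) (by rw [hj]; simp)
            · rintro rfl
              exact hi
          rw [h1, Finset.prod_singleton, hi]
          have h2 : R (some k) = 1 := by
            simp only [hR]
            rw [if_pos ⟨i, hi⟩]
          rw [h2, one_mul]
        · have h1 : (Finset.univ.filter fun j => f j = some k) = ∅ := by
            ext j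
            simp only [Finset.mem_filter, Finset.mem_univ, true_and, Finset.notMem_empty,
              iff_false]
            exact fun hj => h ⟨j, hj⟩
          rw [h1, Finset.prod_empty, mul_one]
          simp only [hR]
          rw [if_neg h]
    have hQ : ∀ k, Rg x (Qp a x k 1) := by
      intro k
      have := Rg_Qp_self a hs x hx k 1
      rwa [Nat.cast_one] at this
    have hqR : ∀ o, Rg x (q o) := by
      intro o
      cases o with
      | none => exact Rg_one x
      | some k => exact hQ k
    have hRR : ∀ o ∈ S, Rg x (R o) := by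
      intro o _
      simp only [hR]
      split_ifs
      · exact Rg_one x
      · exact hqR o
    have e3 : (∏ k ∈ P, Qp a x k 1) * G * ∏ i, w' i (f i) =
        ((∏ o ∈ S, R o) * G * ∏ i, w' i (f i)) * ∏ i, q (f i) := by
      rw [hprod]
      ring
    rw [e3, B4b_scale γ _ (fun i => q (f i))]
    refine fact2 x γ _ ?_ _ ?_
    · refine Rg_mul (Rg_mul (Rg_prod _ _ hRR) hG) (Rg_prod _ _ fun i _ => ?_)
      cases hfi : f i with
      | none => simp only [hw', Option.elim_none]; exact Rg_one x
      | some k => simp only [hw', Option.elim_some]; exact hw i k (hmem i k hfi)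
    · intro i
      cases hfi : f i with
      | none =>
        simp only [hq, hv', Option.elim_none, one_mul]
        exact hr i
      | some k =>
        simp only [hq, hv', Option.elim_some]
        exact RF_Q_Df a hs x hx k

end Pool.Agent.H46.KA
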