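import Pool.Agent.H46.KA.B3
import Pool.Agent.H46.KA.B5
import Pool.Agent.H41.KA.AD1
import Pool.Agent.H41.KA.AD2

/-!
KAC ADE: the bridge between the term calculus (`TV`) and the ring `LL I`.
-/

set_option autoImplicit false

namespace Pool.Agent.H46.KA

open scoped BigOperators
open MvPowerSeries Pool.Agent.H27.KAC

section

variable {I : Type} [Fintype I] [DecidableEq I]

theorem Bridge_zero {w : MvPowerSeries I ℚ} (hw : constantCoeff w = 0) (β : I →₀ ℕ) (n : ℕ)
    (hn : ∑ i, β i < n) (R : MvPowerSeries I ℚ) : coeff β (w ^ n * R) = 0 := by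
  classical
  have hdeg : Finsupp.degree β = ∑ i, β i := by
    rw [Finsupp.degree_eq_sum]
  rw [coeff_mul]
  refine Finset.sum_eq_zero (fun p hp => ?_)
  have h1 : coeff p.1 (w ^ n) = 0 := by
    apply MvPowerSeries.coeff_eq_zero_of_constantCoeff_nilpotent (m := 1)
    · simpa using hw
    · have h2 : p.1 + p.2 = β := Finset.HasAntidiagonal.mem_antidiagonal.mp hp
      have h3 : p.1.degree ≤ β.degree := by
        rw [← h2, map_add]
        exact Nat.le_add_right _ _
      omega
  rw [h1, zero_mul]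

theorem rpw_eq (F : MvPowerSeries I ℚ) (hF : constantCoeff F = 1) (α : ℚ) :
    rpw F α = Pool.Agent.H27.KAC.rpw F α := by
  have hw : constantCoeff (F - 1) = 0 := by rw [map_sub, hF, map_one, sub_self]
  ext β
  obtain ⟨R, hR⟩ := AD1_trunc (F - 1) hw α (∑ i, β i)
  rw [add_sub_cancel] at hR
  rw [hR, map_add, Bridge_zero hw β _ (Nat.lt_succ_self _) R, add_zero, map_sum]
  change ∑ n ∈ Finset.range (∑ i, β i + 1), Ring.choose α n * coeff β ((F - 1) ^ n) = _
  refine Finset.sum_congr rfl (fun n _ => ?_)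
  rw [coeff_C_mul]

theorem Qp_eq (a : I → I → ℕ) (i : I) (k : ℕ) (α : ℚ) :
    Qp a i k α = tm (fun j => tdg (Finsupp.single (i, k) α) j) *
      Tht a (mU a (Finsupp.single (i, k) α)) := by
  rw [Qp, mU_single, rpw_eq _ (uS_const a i k)]
  congr 2
  funext j
  rw [tdg_single]
  by_cases h : j = i
  · subst h
    rw [if_pos rfl, if_pos rfl, mul_comm]
  · rw [if_neg h, if_neg (fun h' => h h'.symm)]

theorem mon_eq (a : I → I → ℕ) (E : QE I) :
    mon a E = tm (fun i => tdg E i) * Tht a (mU a E) := by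
  classical
  induction E using Finsupp.induction_linear with
  | zero =>
    rw [mon_zero, mU_zero, Tht_one, mul_one]
    have : (fun i => tdg (0 : QE I) i) = (0 : I → ℚ) := by
      funext i
      rw [tdg_zero]
      rfl
    rw [this, tm_zero]
  | add E F hE hF =>
    rw [mon_add, hE, hF, mU_add, Tht_mul]
    have : (fun i => tdg (E + F) i) = (fun i => tdg E i) + (fun i => tdg F i) := by
      funext i
      rw [tdg_add]
      rfl
    rw [this, tm_add]
    ring
  | single ik α =>
    obtain ⟨i, k⟩ := ik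
    rw [mon_single, Qp_eq]

/-- the column `∑ c(i,k) D_{i,k}`. -/
noncomputable def cf (a : I → I → ℕ) (c : QE I) : Fm I :=
  fun l => ∑ ik ∈ c.support, qC (c ik) * Df a ik.1 ik.2 l

theorem cf_eq (a : I → I → ℕ) (c : QE I) (l : I) : cf a c l = Tht a (dl a c l) := by
  rw [cf, dl, ← ThtH_apply, map_sum]
  refine Finset.sum_congr rfl (fun ik _ => ?_)
  rw [map_mul, ThtH_apply, ThtH_apply, Tht_C]
  rfl

theorem cM_cf (a : I → I → ℕ) (Λ : I → QE I) :
    (cM (fun i => cf a (Λ i))).det = Tht a (colMat (fun i => dl a (Λ i))).det := by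
  rw [← ThtH_apply, RingHom.map_det]
  congr 1
  refine Matrix.ext (fun l i => ?_)
  rw [RingHom.mapMatrix_apply, Matrix.map_apply, ThtH_apply]
  exact cf_eq a (Λ i) l

/-- the value of a term as a constant term in `LL I`. -/
theorem TV_eq (a : I → I → ℕ) (T : Trm I) :
    TV a T = CTd T.γ (mon a T.E) (fun i => cf a (T.Λ i)) := by
  classical
  have h0 : CTd T.γ (mon a T.E) (fun i => cf a (T.Λ i)) =
      CT T.γ (tm (fun i => tdg T.E i) *
        Tht a (mU a T.E * (colMat (fun i => dl a (T.Λ i))).det)) := by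
    rw [CTd, cM_cf, mon_eq, Tht_mul, mul_assoc]
  rw [h0]
  by_cases hn : ∀ i, ((⌊T.γ i⌋₊ : ℕ) : ℚ) = T.γ i
  · have hγ : T.γ = fun i => ((gN T.γ) i : ℚ) := by
      funext i
      rw [← hn i]
      simp [gN]
    have hcq : ∀ i, cq a T.γ i = ((cw a (gN T.γ) i : ℤ) : ℚ) := by
      intro i
      rw [cq, cw]
      push_cast
      refine Finset.sum_congr rfl (fun j _ => ?_)
      rw [show T.γ j = ((gN T.γ) j : ℚ) from congrFun hγ j]
    by_cases hd : ∀ i, tdg T.E i = cq a T.γ i
    · rw [TV, if_pos ⟨hn, hd⟩, TV0]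
      rw [show (fun i => tdg T.E i) = fun i => ((cw a (gN T.γ) i : ℤ) : ℚ) from
        funext (fun i => (hd i).trans (hcq i))]
      conv_rhs => rw [hγ]
      have h1 := CT_Tht a (gN T.γ) (mU a T.E * (colMat (fun i => dl a (T.Λ i))).det)
      have h2 : gN (fun i => ((gN T.γ) i : ℚ)) = gN T.γ := by rw [← hγ]
      rw [h2]
      exact h1.symm
    · rw [TV, if_neg (fun h => hd h.2)]
      obtain ⟨i, hi⟩ := not_forall.mp hd
      have h1 := CT_Tht_ne a (gN T.γ) (fun i => tdg T.E i) ⟨i, fun h => hi (h.trans (hcq i).symm)⟩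
        (mU a T.E * (colMat (fun i => dl a (T.Λ i))).det)
      conv_rhs => rw [hγ]
      exact h1.symm
  · rw [TV, if_neg (fun h => hn h.1)]
    symm
    apply CT_of_not
    rintro ⟨n, hn'⟩
    apply hn
    intro i
    rw [← hn' i, Nat.floor_natCast]

end

end Pool.Agent.H46.KA
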