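import Pool.Agent.H41.KA.AG0

/-!
KAC ADE: the facts about the response numbers `cn` which come from the response theorem, and the target
(nonnegativity).
-/

set_option autoImplicit false

namespace Pool.Agent.H27.KAC

open scoped BigOperators

section

variable {I : Type} [Fintype I] [DecidableEq I]

/-- `q` is in the weight lattice of `A`. -/
def WtL (a : I → I → ℕ) (A : Finset I) (q : I → ℚ) : Prop := ∀ x ∈ A, IsZ (cqN a A q x)

/-- `c_q^A(n)` for an integer `n` given as a difference `L - i` (zero if negative). -/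
noncomputable def cnS (a : I → I → ℕ) (cd : CrossData a) (A : Finset I) (q : I → ℚ) (L i : ℕ) : ℚ :=
  if i ≤ L then cn a cd A q (L - i) else 0

/-- Consequences of the response theorem for the numbers `cn`:
`P(t) = ∑ p_i t^i = 1 / ∑ c(g) t^g` is an integer polynomial of degree `≤ mm A`, and it annihilates all sequences
`i ↦ ∏_{s ∈ M} (α_s + κ_s i) ∏_N c^N(L_N - i)` (`M` a nonempty set of vertices with integral `q`, `N` the components
of `A \ M`, `L_N ≥ mm A + 1 - mm N`). -/
structure RTnum (a : I → I → ℕ) (cd : CrossData a) : Prop where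
  int : ∀ A q g, FinT a A → ConnS a A → WtL a A q → IsZ (cn a cd A q g)
  recu : ∀ A q, FinT a A → ConnS a A → WtL a A q → ∃ p : ℕ → ℚ, p 0 = 1 ∧
    (∀ i, IsZ (p i)) ∧ (∀ i, cd.mm A < i → p i = 0) ∧
    p (cd.mm A) = -((-1) ^ A.card * cd.eps A q) ∧
    (∀ n, 1 ≤ n → ∑ i ∈ Finset.range (n + 1), p i * cn a cd A q (n - i) = 0) ∧
    ∀ M ⊆ A, M.Nonempty → (∀ x ∈ M, IsZ (q x)) → ∀ (α κ : I → ℚ) (L : Finset I → ℕ),
      (∀ N ∈ comps a (A \ M), cd.mm A + 1 ≤ L N + cd.mm N) →
      ∑ i ∈ Finset.range (cd.mm A + 1),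
        p i * (∏ s ∈ M, (α s + κ s * i)) * ∏ N ∈ comps a (A \ M), cnS a cd N q (L N) i = 0

open Classical in
/-- star-pure, unfolded: the recursion which defines `cn`. -/
def StarPure (a : I → I → ℕ) (cd : CrossData a) : Prop :=
  ∀ A q g, FinT a A → ConnS a A → 1 ≤ g → cn a cd A q g =
    ∑ M ∈ A.powerset.filter (fun M => ∀ x ∈ M, IsZ (q x)),
      (-1) ^ (A \ M).card * detEff a (A \ M) M * (g : ℚ) ^ M.card *
        ∏ N ∈ comps a (A \ M), (cd.eps N q * cnS a cd N q g (cd.mm N))

end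

end Pool.Agent.H27.KAC
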