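import Pool.Agent.H46.KA.Defs

/-!
KAC ADE, module B1: ring laws of `tm`, `qC`, `th`, `CT`.

`TT I = AddMonoidAlgebra ℚ (I → ℚ)` (structure with field `coeff : (I → ℚ) →₀ ℚ`), `LL I = MvPowerSeries I (TT I)`.
`Tht a F` has the coefficient `single (dg a β) (coeff β F)` at `β`; `dg a` is additive (`cw_add`), so `Tht a` is a ring
homomorphism: in the antidiagonal sum `single d r * single d' r' = single (d + d') (r * r')`.
`th l` is a derivation (coefficientwise `thA l`, and `(d + d') l = d l + d' l`); it commutes with `X i` (`th l (X i) = 0`).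
`CT`: for non-integral `γ` everything is `0`; otherwise it is a linear functional of one coefficient.
For `CT_X_pow_mul`: `coeff (γ + n e_x) (X x ^ n * F) = coeff γ F`, and `coeff m (X x ^ n * F) = 0` if `m x < n`.
-/

set_option autoImplicit false

namespace Pool.Agent.H46.KA

open scoped BigOperators
open MvPowerSeries Pool.Agent.H27.KAC

section

variable {I : Type}

/-- `qC` as a ring homomorphism. -/
private noncomputable def B1_qH : ℚ →+* LL I :=
  (MvPowerSeries.C : TT I →+* LL I).comp AddMonoidAlgebra.singleZeroRingHom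

private theorem B1_qH_apply (r : ℚ) : (B1_qH r : LL I) = qC r := rfl

private theorem B1_thA_coeff (l : I) (p : TT I) (d : I → ℚ) :
    (thA l p).coeff d = d l * p.coeff d := rfl

private theorem B1_thA_zero (l : I) : thA l (0 : TT I) = 0 := by
  apply AddMonoidAlgebra.ext
  ext d
  rw [B1_thA_coeff]
  simp

private theorem B1_thA_add (l : I) (p q : TT I) : thA l (p + q) = thA l p + thA l q := by
  apply AddMonoidAlgebra.ext
  ext d
  rw [B1_thA_coeff, AddMonoidAlgebra.coeff_add, AddMonoidAlgebra.coeff_add, Finsupp.add_apply,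
    Finsupp.add_apply, B1_thA_coeff, B1_thA_coeff, mul_add]

private noncomputable def B1_thH (l : I) : TT I →+ TT I where
  toFun := thA l
  map_zero' := B1_thA_zero l
  map_add' := B1_thA_add l

private theorem B1_thA_single (l : I) (d : I → ℚ) (r : ℚ) :
    thA l (AddMonoidAlgebra.single d r : TT I) = AddMonoidAlgebra.single d (d l * r) := by
  classical
  apply AddMonoidAlgebra.ext
  ext e
  rw [B1_thA_coeff, AddMonoidAlgebra.coeff_single_apply, AddMonoidAlgebra.coeff_single_apply]
  by_cases h : d = e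
  · rw [if_pos h, if_pos h, h]
  · rw [if_neg h, if_neg h, mul_zero]

private theorem B1_thA_mul (l : I) (p q : TT I) : thA l (p * q) = thA l p * q + p * thA l q := by
  induction p using AddMonoidAlgebra.induction_linear with
  | zero => rw [zero_mul, B1_thA_zero, zero_mul, zero_mul, add_zero]
  | add p p' hp hp' =>
    rw [add_mul, B1_thA_add, hp, hp', B1_thA_add, add_mul, add_mul]
    ring
  | single d r =>
    induction q using AddMonoidAlgebra.induction_linear with
    | zero => rw [mul_zero, B1_thA_zero, mul_zero, mul_zero, add_zero]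
    | add q q' hq hq' =>
      rw [mul_add, B1_thA_add, hq, hq', B1_thA_add, mul_add, mul_add]
      ring
    | single d' r' =>
      rw [AddMonoidAlgebra.single_mul_single, B1_thA_single, B1_thA_single, B1_thA_single,
        AddMonoidAlgebra.single_mul_single, AddMonoidAlgebra.single_mul_single,
        ← AddMonoidAlgebra.single_add]
      congr 1
      rw [Pi.add_apply]
      ring

private theorem B1_coeff_th (l : I) (F : LL I) (β : I →₀ ℕ) :
    MvPowerSeries.coeff β (th l F) = thA l (MvPowerSeries.coeff β F) := rfl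

private noncomputable def B1_thLH (l : I) : LL I →+ LL I where
  toFun := th l
  map_zero' := by
    ext1 β
    rw [B1_coeff_th, map_zero, B1_thA_zero]
  map_add' F G := by
    ext1 β
    rw [B1_coeff_th, map_add, B1_thA_add, map_add, B1_coeff_th, B1_coeff_th]

private theorem B1_thLH_apply (l : I) (F : LL I) : B1_thLH l F = th l F := rfl

theorem tm_zero : tm (0 : I → ℚ) = (1 : LL I) := by
  unfold tm
  rw [← AddMonoidAlgebra.one_def, map_one]

theorem tm_add (d d' : I → ℚ) : (tm (d + d') : LL I) = tm d * tm d' := by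
  unfold tm
  rw [← map_mul, AddMonoidAlgebra.single_mul_single, mul_one]

theorem coeff_tm_mul (d : I → ℚ) (F : LL I) (β : I →₀ ℕ) :
    MvPowerSeries.coeff β (tm d * F) = AddMonoidAlgebra.single d (1 : ℚ) * MvPowerSeries.coeff β F :=
  MvPowerSeries.coeff_C_mul _ _ _

theorem qC_zero : (qC 0 : LL I) = 0 := by
  rw [← B1_qH_apply, map_zero]

theorem qC_one : (qC 1 : LL I) = 1 := by
  rw [← B1_qH_apply, map_one]

theorem qC_add (r r' : ℚ) : (qC (r + r') : LL I) = qC r + qC r' := by
  rw [← B1_qH_apply, map_add, B1_qH_apply, B1_qH_apply]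

theorem qC_neg (r : ℚ) : (qC (-r) : LL I) = -qC r := by
  rw [← B1_qH_apply, map_neg, B1_qH_apply]

theorem qC_mul (r r' : ℚ) : (qC (r * r') : LL I) = qC r * qC r' := by
  rw [← B1_qH_apply, map_mul, B1_qH_apply, B1_qH_apply]

theorem qC_natCast (n : ℕ) : (qC (n : ℚ) : LL I) = (n : LL I) := by
  rw [← B1_qH_apply, map_natCast]

theorem qC_intCast (n : ℤ) : (qC (n : ℚ) : LL I) = (n : LL I) := by
  rw [← B1_qH_apply, map_intCast]

theorem qC_sum {ι : Type} (s : Finset ι) (f : ι → ℚ) : (qC (∑ i ∈ s, f i) : LL I) = ∑ i ∈ s, qC (f i) := by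
  rw [← B1_qH_apply, map_sum]
  rfl

theorem th_zero (l : I) : th l (0 : LL I) = 0 := by
  rw [← B1_thLH_apply, map_zero]

theorem th_add (l : I) (F G : LL I) : th l (F + G) = th l F + th l G := by
  rw [← B1_thLH_apply, map_add, B1_thLH_apply, B1_thLH_apply]

theorem th_sub (l : I) (F G : LL I) : th l (F - G) = th l F - th l G := by
  rw [← B1_thLH_apply, map_sub, B1_thLH_apply, B1_thLH_apply]

theorem th_neg (l : I) (F : LL I) : th l (-F) = -th l F := by
  rw [← B1_thLH_apply, map_neg, B1_thLH_apply]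

theorem th_mul (l : I) (F G : LL I) : th l (F * G) = th l F * G + F * th l G := by
  classical
  ext1 β
  rw [B1_coeff_th, MvPowerSeries.coeff_mul, map_add, MvPowerSeries.coeff_mul,
    MvPowerSeries.coeff_mul, ← Finset.sum_add_distrib]
  have h : thA l (∑ p ∈ Finset.HasAntidiagonal.antidiagonal β,
      MvPowerSeries.coeff p.1 F * MvPowerSeries.coeff p.2 G) =
      ∑ p ∈ Finset.HasAntidiagonal.antidiagonal β, thA l (MvPowerSeries.coeff p.1 F * MvPowerSeries.coeff p.2 G) :=
    map_sum (B1_thH l) _ _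
  rw [h]
  refine Finset.sum_congr rfl fun p _ => ?_
  rw [B1_thA_mul, B1_coeff_th, B1_coeff_th]

theorem th_one (l : I) : th l (1 : LL I) = 0 := by
  have h := th_mul l (1 : LL I) 1
  rw [mul_one, mul_one, one_mul] at h
  exact left_eq_add.mp h

theorem th_pow (l : I) (F : LL I) (n : ℕ) : th l (F ^ n) = (n : LL I) * F ^ (n - 1) * th l F := by
  induction n with
  | zero => rw [pow_zero, th_one, Nat.cast_zero, zero_mul, zero_mul]
  | succ n ih =>
    rw [pow_succ, th_mul, ih, Nat.add_sub_cancel]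
    rcases n with _ | n
    · simp
    · rw [Nat.add_sub_cancel]
      push_cast
      ring

theorem th_sum (l : I) {ι : Type} (s : Finset ι) (f : ι → LL I) :
    th l (∑ i ∈ s, f i) = ∑ i ∈ s, th l (f i) := by
  rw [← B1_thLH_apply, map_sum]
  rfl

private theorem B1_th_C (l : I) (p : TT I) :
    th l (MvPowerSeries.C p : LL I) = MvPowerSeries.C (thA l p) := by
  classical
  ext1 β
  rw [B1_coeff_th, MvPowerSeries.coeff_C, MvPowerSeries.coeff_C]
  split_ifs
  · rfl
  · exact B1_thA_zero l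

theorem th_tm (l : I) (d : I → ℚ) : th l (tm d : LL I) = qC (d l) * tm d := by
  unfold tm qC
  rw [B1_th_C, B1_thA_single, ← map_mul, AddMonoidAlgebra.single_mul_single, zero_add]

theorem th_qC (l : I) (r : ℚ) : th l (qC r : LL I) = 0 := by
  unfold qC
  rw [B1_th_C, B1_thA_single, Pi.zero_apply, zero_mul, AddMonoidAlgebra.single_zero, map_zero]

theorem th_X (l i : I) : th l (X i : LL I) = 0 := by
  classical
  ext1 β
  rw [B1_coeff_th, MvPowerSeries.coeff_X, map_zero]
  split_ifs
  · rw [AddMonoidAlgebra.one_def, B1_thA_single, Pi.zero_apply, zero_mul,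
      AddMonoidAlgebra.single_zero]
  · exact B1_thA_zero l

/-- `CT` at an integral `γ`. -/
theorem CT_nat (γ : I →₀ ℕ) (F : LL I) :
    CT (fun i => (γ i : ℚ)) F = (MvPowerSeries.coeff γ F).coeff 0 := by
  have h : ∃ n : I →₀ ℕ, ∀ i, (n i : ℚ) = (γ i : ℚ) := ⟨γ, fun _ => rfl⟩
  unfold CT
  rw [dif_pos h]
  have h2 : h.choose = γ := by
    ext i
    exact_mod_cast h.choose_spec i
  rw [h2]

theorem CT_of_not (γ : I → ℚ) (h : ¬ ∃ n : I →₀ ℕ, ∀ i, (n i : ℚ) = γ i) (F : LL I) : CT γ F = 0 := by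
  unfold CT
  rw [dif_neg h]

private theorem B1_cases (γ : I → ℚ) :
    (∃ n : I →₀ ℕ, γ = fun i => (n i : ℚ)) ∨ ¬ ∃ n : I →₀ ℕ, ∀ i, (n i : ℚ) = γ i := by
  by_cases h : ∃ n : I →₀ ℕ, ∀ i, (n i : ℚ) = γ i
  · obtain ⟨n, hn⟩ := h
    exact Or.inl ⟨n, funext fun i => (hn i).symm⟩
  · exact Or.inr h

theorem CT_zero (γ : I → ℚ) : CT γ (0 : LL I) = 0 := by
  rcases B1_cases γ with ⟨n, rfl⟩ | h
  · rw [CT_nat]
    show ((MvPowerSeries.coeff n (0 : LL I)).coeff 0) = 0
    rw [LinearMap.map_zero]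
    rfl
  · rw [CT_of_not γ h]

theorem CT_add (γ : I → ℚ) (F G : LL I) : CT γ (F + G) = CT γ F + CT γ G := by
  rcases B1_cases γ with ⟨n, rfl⟩ | h
  · rw [CT_nat, CT_nat, CT_nat, map_add, AddMonoidAlgebra.coeff_add, Finsupp.add_apply]
  · rw [CT_of_not γ h, CT_of_not γ h, CT_of_not γ h, add_zero]

private noncomputable def B1_CTH (γ : I → ℚ) : LL I →+ ℚ where
  toFun := CT γ
  map_zero' := CT_zero γ
  map_add' := CT_add γ

private theorem B1_CTH_apply (γ : I → ℚ) (F : LL I) : B1_CTH γ F = CT γ F := rfl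

theorem CT_neg (γ : I → ℚ) (F : LL I) : CT γ (-F) = -CT γ F := by
  rw [← B1_CTH_apply, map_neg, B1_CTH_apply]

theorem CT_sub (γ : I → ℚ) (F G : LL I) : CT γ (F - G) = CT γ F - CT γ G := by
  rw [← B1_CTH_apply, map_sub, B1_CTH_apply, B1_CTH_apply]

theorem CT_sum (γ : I → ℚ) {ι : Type} (s : Finset ι) (f : ι → LL I) :
    CT γ (∑ i ∈ s, f i) = ∑ i ∈ s, CT γ (f i) := by
  rw [← B1_CTH_apply, map_sum]
  rfl

theorem CT_qC_mul (γ : I → ℚ) (r : ℚ) (F : LL I) : CT γ (qC r * F) = r * CT γ F := by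
  rcases B1_cases γ with ⟨n, rfl⟩ | h
  · rw [CT_nat, CT_nat]
    unfold qC
    rw [MvPowerSeries.coeff_C_mul, AddMonoidAlgebra.coeff_single_mul_eq_mul_coeff (m₂ := 0)]
    intro m' _
    rw [zero_add]
  · rw [CT_of_not γ h, CT_of_not γ h, mul_zero]

/-- `F` has zero coefficients at all `s^β t^0`. -/
theorem CT_eq_zero_of (γ : I → ℚ) (F : LL I)
    (h : ∀ β : I →₀ ℕ, (MvPowerSeries.coeff β F).coeff 0 = 0) : CT γ F = 0 := by
  rcases B1_cases γ with ⟨n, rfl⟩ | h'
  · rw [CT_nat, h]
  · rw [CT_of_not γ h']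

theorem CT_X_pow_mul [DecidableEq I] (γ : I → ℚ) (x : I) (n : ℕ) (F : LL I) :
    CT (fun i => γ i + if i = x then (n : ℚ) else 0) (X x ^ n * F) = CT γ F := by
  rcases B1_cases γ with ⟨m, rfl⟩ | h
  · have e : (fun i => ((m i : ℕ) : ℚ) + if i = x then (n : ℚ) else 0) =
        fun i => (((m + Finsupp.single x n) i : ℕ) : ℚ) := by
      funext i
      rw [Finsupp.add_apply, Finsupp.single_apply, Nat.cast_add]
      by_cases hi : i = x
      · rw [if_pos hi, if_pos hi.symm]
      · rw [if_neg hi, if_neg (Ne.symm hi), Nat.cast_zero]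
    rw [e, CT_nat, CT_nat, MvPowerSeries.X_pow_eq, add_comm m (Finsupp.single x n),
      MvPowerSeries.coeff_add_monomial_mul, one_mul]
  · rw [CT_of_not γ h]
    rcases B1_cases (fun i => γ i + if i = x then (n : ℚ) else 0) with ⟨m, hm⟩ | h2
    · rw [hm, CT_nat, MvPowerSeries.X_pow_eq, MvPowerSeries.coeff_monomial_mul]
      rw [if_neg, AddMonoidAlgebra.coeff_zero, Finsupp.zero_apply]
      intro hle
      apply h
      refine ⟨m - Finsupp.single x n, fun i => ?_⟩
      have h3 := congrFun hm i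
      have h4 := hle i
      rw [Finsupp.tsub_apply, Nat.cast_sub h4, ← h3, Finsupp.single_apply]
      by_cases hi : i = x
      · rw [if_pos hi, if_pos hi.symm]
        ring
      · rw [if_neg hi, if_neg (Ne.symm hi)]
        simp
    · rw [CT_of_not _ h2]

end

end Pool.Agent.H46.KA
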