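import Pool.Agent.H46.KA.B1

/-!
KAC ADE, module B1b: ring laws of `Tht`.

`TT I = AddMonoidAlgebra ℚ (I → ℚ)` (structure with field `coeff : (I → ℚ) →₀ ℚ`), `LL I = MvPowerSeries I (TT I)`.
`Tht a F` has the coefficient `single (dg a β) (coeff β F)` at `β`; `dg a` is additive (`cw_add`), so `Tht a` is a ring
homomorphism: in the antidiagonal sum `single d r * single d' r' = single (d + d') (r * r')`.
`th l` is a derivation (coefficientwise `thA l`, and `(d + d') l = d l + d' l`); it commutes with `X i` (`th l (X i) = 0`).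
`CT`: for non-integral `γ` everything is `0`; otherwise it is a linear functional of one coefficient.
For `CT_X_pow_mul`: `coeff (γ + n e_x) (X x ^ n * F) = coeff γ F`, and `coeff m (X x ^ n * F) = 0` if `m x < n`.
-/

set_option autoImplicit false

namespace Pool.Agent.H46.KA

open scoped BigOperators
open MvPowerSeries Pool.Agent.H27.KAC

section

variable {I : Type} [Fintype I] [DecidableEq I]

theorem b1b_dg_add (a : I → I → ℕ) (β γ : I →₀ ℕ) : dg a (β + γ) = dg a β + dg a γ := by
  funext i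
  simp only [dg, Pi.add_apply, cw_add]
  push_cast
  ring

theorem b1b_dg_zero (a : I → I → ℕ) : dg a (0 : I →₀ ℕ) = 0 := by
  funext i
  simp [dg, cw_zero]

theorem b1b_coeff_Tht (a : I → I → ℕ) (F : MvPowerSeries I ℚ) (β : I →₀ ℕ) :
    MvPowerSeries.coeff β (Tht a F) = AddMonoidAlgebra.single (dg a β) (MvPowerSeries.coeff β F) := rfl

theorem b1b_coeff_dD (a : I → I → ℕ) (l : I) (F : MvPowerSeries I ℚ) (β : I →₀ ℕ) :
    MvPowerSeries.coeff β (dD a l F) = (-(cw a β l : ℤ) : ℚ) * MvPowerSeries.coeff β F := rfl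

theorem Tht_zero (a : I → I → ℕ) : Tht a (0 : MvPowerSeries I ℚ) = 0 := by
  ext1 β
  rw [b1b_coeff_Tht, map_zero, map_zero]
  exact AddMonoidAlgebra.single_zero _

theorem Tht_C (a : I → I → ℕ) (r : ℚ) : Tht a (C r) = qC r := by
  ext1 β
  rw [b1b_coeff_Tht, qC, MvPowerSeries.coeff_C, MvPowerSeries.coeff_C]
  split_ifs with h
  · rw [h, b1b_dg_zero]
  · exact AddMonoidAlgebra.single_zero _

theorem Tht_one (a : I → I → ℕ) : Tht a (1 : MvPowerSeries I ℚ) = 1 := by
  have h := Tht_C a (1 : ℚ)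
  rw [qC_one, map_one] at h
  exact h

theorem Tht_add (a : I → I → ℕ) (F G : MvPowerSeries I ℚ) : Tht a (F + G) = Tht a F + Tht a G := by
  ext1 β
  rw [b1b_coeff_Tht, map_add, map_add, b1b_coeff_Tht, b1b_coeff_Tht]
  exact AddMonoidAlgebra.single_add _ _ _

omit [Fintype I] [DecidableEq I] in
theorem b1b_single_sum {ι : Type} (d : I → ℚ) (s : Finset ι) (f : ι → ℚ) :
    (AddMonoidAlgebra.single d (∑ i ∈ s, f i) : TT I) = ∑ i ∈ s, AddMonoidAlgebra.single d (f i) := by
  classical
  induction s using Finset.induction_on with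
  | empty => simp
  | insert x s hx ih => rw [Finset.sum_insert hx, Finset.sum_insert hx, AddMonoidAlgebra.single_add, ih]

theorem Tht_mul (a : I → I → ℕ) (F G : MvPowerSeries I ℚ) : Tht a (F * G) = Tht a F * Tht a G := by
  classical
  ext1 β
  rw [b1b_coeff_Tht, MvPowerSeries.coeff_mul, MvPowerSeries.coeff_mul, b1b_single_sum]
  refine Finset.sum_congr rfl fun p hp => ?_
  rw [b1b_coeff_Tht, b1b_coeff_Tht, AddMonoidAlgebra.single_mul_single, ← b1b_dg_add,
    Finset.HasAntidiagonal.mem_antidiagonal.mp hp]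

/-- `Tht a` as a ring homomorphism. -/
noncomputable def ThtH (a : I → I → ℕ) : MvPowerSeries I ℚ →+* LL I where
  toFun := Tht a
  map_one' := Tht_one a
  map_mul' := Tht_mul a
  map_zero' := Tht_zero a
  map_add' := Tht_add a

theorem ThtH_apply (a : I → I → ℕ) (F : MvPowerSeries I ℚ) : ThtH a F = Tht a F := rfl

theorem b1b_dg_single (a : I → I → ℕ) (i : I) :
    dg a (Finsupp.single i 1) = fun j => -((cart a j i : ℤ) : ℚ) := by
  funext j
  have h : cw a (Finsupp.single i 1) j = cart a j i := by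
    unfold cw
    rw [Finset.sum_eq_single i]
    · simp
    · intro b _ hb
      simp [hb.symm]
    · intro h
      exact absurd (Finset.mem_univ i) h
  simp only [dg, h]

theorem Tht_X (a : I → I → ℕ) (i : I) :
    Tht a (X i) = X i * tm (fun j => -((cart a j i : ℤ) : ℚ)) := by
  classical
  ext1 β
  rw [b1b_coeff_Tht, mul_comm, coeff_tm_mul, MvPowerSeries.coeff_X, MvPowerSeries.coeff_X]
  split_ifs with h
  · rw [h, b1b_dg_single, mul_one]
  · rw [mul_zero]
    exact AddMonoidAlgebra.single_zero _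

omit [DecidableEq I] in
theorem b1b_thA_single (l : I) (d : I → ℚ) (r : ℚ) :
    thA l (AddMonoidAlgebra.single d r : TT I) = AddMonoidAlgebra.single d (d l * r) := by
  classical
  apply AddMonoidAlgebra.ext
  ext e
  show e l * (AddMonoidAlgebra.single d r : TT I).coeff e
    = (AddMonoidAlgebra.single d (d l * r) : TT I).coeff e
  rw [AddMonoidAlgebra.coeff_single, AddMonoidAlgebra.coeff_single, Finsupp.single_apply,
    Finsupp.single_apply]
  split_ifs with h
  · rw [h]
  · rw [mul_zero]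

theorem th_Tht (a : I → I → ℕ) (l : I) (F : MvPowerSeries I ℚ) :
    th l (Tht a F) = Tht a (dD a l F) := by
  ext1 β
  have h : MvPowerSeries.coeff β (th l (Tht a F)) = thA l (MvPowerSeries.coeff β (Tht a F)) := rfl
  rw [h, b1b_coeff_Tht, b1b_coeff_Tht, b1b_thA_single, b1b_coeff_dD]
  rfl

/-- the connection with the coefficient of `Y^γ`. -/
theorem CT_Tht (a : I → I → ℕ) (γ : I →₀ ℕ) (F : MvPowerSeries I ℚ) :
    CT (fun i => (γ i : ℚ)) (tm (fun i => ((cw a γ i : ℤ) : ℚ)) * Tht a F) = MvPowerSeries.coeff γ F := by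
  classical
  rw [CT_nat, coeff_tm_mul, b1b_coeff_Tht, AddMonoidAlgebra.single_mul_single, one_mul]
  have h : (fun i => ((cw a γ i : ℤ) : ℚ)) + dg a γ = 0 := by
    funext i
    simp [dg]
  rw [h, AddMonoidAlgebra.coeff_single, Finsupp.single_eq_same]

/-- wrong `t`-degree gives zero. -/
theorem CT_Tht_ne (a : I → I → ℕ) (γ : I →₀ ℕ) (d : I → ℚ)
    (hd : ∃ i, d i ≠ ((cw a γ i : ℤ) : ℚ)) (F : MvPowerSeries I ℚ) :
    CT (fun i => (γ i : ℚ)) (tm d * Tht a F) = 0 := by
  classical
  rw [CT_nat, coeff_tm_mul, b1b_coeff_Tht, AddMonoidAlgebra.single_mul_single, one_mul]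
  have h : d + dg a γ ≠ 0 := by
    intro h0
    obtain ⟨i, hi⟩ := hd
    apply hi
    have := congrFun h0 i
    simp only [dg, Pi.add_apply, Pi.zero_apply] at this
    linarith
  rw [AddMonoidAlgebra.coeff_single, Finsupp.single_apply, if_neg h]

end

end Pool.Agent.H46.KA
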