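import Pool.Agent.H46.KA.Defs

/-!
KAC ADE, module B2: rational powers of power series with constant term 1.

`rpw F α = ∑_n (α choose n) (F - 1)^n`, truncated coefficientwise at `n ≤ |β|` (for `constantCoeff F = 1` the coefficient
at `β` of `(F - 1)^n` vanishes for `n > |β|`, so any larger truncation gives the same).
* `rpw_add`: Vandermonde `Ring.add_choose_eq`, both sides truncated at a large order.
* `rpw_nat`: binomial theorem (`Ring.choose_natCast`), or from `rpw_one` and `rpw_add`.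
* `dD_rpw`: `(n + 1) (α choose n+1) = α (α - 1 choose n)`; alternatively: for `α = n/m` use `(rpw F α)^m = F^n` and
  cancel (the ring is a domain of characteristic 0).
* `rpw_Fil`: `Fil` is closed under products, sums (see `KQFil`).
* `rpw_int`: `(α choose n) * (den α)^(2 n)` is an integer (`(p/q choose n) = p (p-q) ... (p-(n-1)q) / (q^n n!)`, and
  the primes `ℓ` not dividing `q` are harmless by `ℓ`-adic continuity; a convenient form in Mathlib may exist for
  `Ring.choose`; alternatively argue with the `m`-th root: integrality of `V` with `V^m = U^n`, coefficient by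
  coefficient: `m V_β ∈ ℤ[1/m]`-combination of products of lower coefficients).
-/

set_option autoImplicit false

namespace Pool.Agent.H46.KA

open scoped BigOperators
open MvPowerSeries Pool.Agent.H27.KAC

variable {I : Type} [Fintype I] [DecidableEq I]

/-! ### Families that are polynomial in the exponent -/

private def B2_Pol (f : ℚ → MvPowerSeries I ℚ) : Prop :=
  ∀ β : I →₀ ℕ, ∃ p : Polynomial ℚ, ∀ α : ℚ, coeff β (f α) = p.eval α

private theorem B2_ext {f g : ℚ → MvPowerSeries I ℚ} (hf : B2_Pol f) (hg : B2_Pol g)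
    (h : ∀ n : ℕ, f n = g n) (α : ℚ) : f α = g α := by
  ext β
  obtain ⟨p, hp⟩ := hf β
  obtain ⟨q, hq⟩ := hg β
  have e : p = q := by
    refine Polynomial.eq_of_infinite_eval_eq p q
      (Set.infinite_of_injective_forall_mem (f := fun n : ℕ => (n : ℚ)) Nat.cast_injective ?_)
    intro n
    show p.eval (n : ℚ) = q.eval (n : ℚ)
    rw [← hp, ← hq, h n]
  rw [hp, hq, e]

private theorem B2_const (F : MvPowerSeries I ℚ) : B2_Pol (fun _ => F) := fun β =>
  ⟨Polynomial.C (coeff β F), fun α => by simp⟩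

private theorem B2_mul {f g : ℚ → MvPowerSeries I ℚ} (hf : B2_Pol f) (hg : B2_Pol g) :
    B2_Pol (fun α => f α * g α) := by
  intro β
  choose p hp using hf
  choose q hq using hg
  refine ⟨∑ x ∈ Finset.HasAntidiagonal.antidiagonal β, p x.1 * q x.2,
    fun α => ?_⟩
  rw [coeff_mul, Polynomial.eval_finsetSum]
  exact Finset.sum_congr rfl fun x _ => by rw [Polynomial.eval_mul, hp, hq]

private theorem B2_C : B2_Pol (fun α => (C α : MvPowerSeries I ℚ)) := by
  intro β
  by_cases h : β = 0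
  · exact ⟨Polynomial.X, fun α => by subst h; simp⟩
  · exact ⟨0, fun α => by rw [coeff_C, if_neg h]; simp⟩

private theorem B2_dD (a : I → I → ℕ) (l : I) {f : ℚ → MvPowerSeries I ℚ} (hf : B2_Pol f) :
    B2_Pol (fun α => dD a l (f α)) := by
  intro β
  obtain ⟨p, hp⟩ := hf β
  exact ⟨Polynomial.C (-(cw a β l : ℤ) : ℚ) * p, fun α => by
    rw [coeff_dD, hp, Polynomial.eval_mul, Polynomial.eval_C]⟩

private theorem B2_comp {f : ℚ → MvPowerSeries I ℚ} (hf : B2_Pol f) (c : ℚ) :
    B2_Pol (fun α => f (α + c)) := by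
  intro β
  obtain ⟨p, hp⟩ := hf β
  exact ⟨p.comp (Polynomial.X + Polynomial.C c), fun α => by
    rw [hp, Polynomial.eval_comp]; simp⟩

private theorem B2_choose (n : ℕ) : ∃ p : Polynomial ℚ, ∀ α : ℚ, Ring.choose α n = p.eval α := by
  refine ⟨Polynomial.C ((n.factorial : ℚ)⁻¹) *
    (descPochhammer ℤ n).map (algebraMap ℤ ℚ), fun α => ?_⟩
  rw [Ring.choose_eq_smul, ← Polynomial.aeval_eq_smeval, Polynomial.eval_mul, Polynomial.eval_C,
    Polynomial.eval_map_algebraMap, smul_eq_mul]

private theorem B2_rpw (F : MvPowerSeries I ℚ) : B2_Pol (fun α => rpw F α) := by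
  intro β
  choose p hp using B2_choose
  refine ⟨∑ n ∈ Finset.range (∑ i, β i + 1), p n * Polynomial.C (coeff β ((F - 1) ^ n)),
    fun α => ?_⟩
  rw [Polynomial.eval_finsetSum]
  show ∑ n ∈ Finset.range (∑ i, β i + 1), Ring.choose α n * coeff β ((F - 1) ^ n) = _
  exact Finset.sum_congr rfl fun n _ => by rw [Polynomial.eval_mul, Polynomial.eval_C, hp]

private theorem B2_zero {F : MvPowerSeries I ℚ} (hF : constantCoeff F = 1) {β : I →₀ ℕ} {n : ℕ}
    (hn : ∑ i, β i < n) : coeff β ((F - 1) ^ n) = 0 := by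
  refine coeff_eq_zero_of_constantCoeff_nilpotent (m := 1) ?_ ?_
  · rw [pow_one, map_sub, hF, map_one, sub_self]
  · have : Finsupp.degree β = ∑ i, β i := by
      rw [Finsupp.degree_eq_sum]
    omega

theorem rpw_nat (F : MvPowerSeries I ℚ) (hF : constantCoeff F = 1) (n : ℕ) :
    rpw F (n : ℚ) = F ^ n := by
  ext β
  have h1 : coeff β (rpw F (n : ℚ)) = ∑ k ∈ Finset.range (∑ i, β i + 1),
      (n.choose k : ℚ) * coeff β ((F - 1) ^ k) := by
    show ∑ k ∈ Finset.range (∑ i, β i + 1), Ring.choose (n : ℚ) k * coeff β ((F - 1) ^ k) = _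
    exact Finset.sum_congr rfl fun k _ => by rw [Ring.choose_natCast]
  have h2 : coeff β (F ^ n) = ∑ k ∈ Finset.range (n + 1),
      (n.choose k : ℚ) * coeff β ((F - 1) ^ k) := by
    conv_lhs => rw [← sub_add_cancel F 1, add_pow]
    rw [map_sum]
    refine Finset.sum_congr rfl fun k _ => ?_
    rw [one_pow, mul_one, mul_comm, ← map_natCast (C (σ := I) (R := ℚ)) (n.choose k), coeff_C_mul]
  have key : ∀ M N : ℕ, M ≤ N → (∀ k, M ≤ k → (n.choose k : ℚ) * coeff β ((F - 1) ^ k) = 0) →
      ∑ k ∈ Finset.range M, (n.choose k : ℚ) * coeff β ((F - 1) ^ k) =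
      ∑ k ∈ Finset.range N, (n.choose k : ℚ) * coeff β ((F - 1) ^ k) := by
    intro M N hMN h0
    refine Finset.sum_subset (Finset.range_subset_range.2 hMN) fun k _ hk => ?_
    exact h0 k (by simpa using hk)
  rw [h1, h2, key _ (max (∑ i, β i + 1) (n + 1)) (le_max_left _ _),
    key _ (max (∑ i, β i + 1) (n + 1)) (le_max_right _ _)]
  · intro k hk
    rw [Nat.choose_eq_zero_of_lt (by omega)]
    simp
  · intro k hk
    rw [B2_zero hF (by omega), mul_zero]

theorem rpw_zero (F : MvPowerSeries I ℚ) (hF : constantCoeff F = 1) : rpw F 0 = 1 := by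
  have := rpw_nat F hF 0
  rwa [Nat.cast_zero, pow_zero] at this

theorem rpw_one (F : MvPowerSeries I ℚ) (hF : constantCoeff F = 1) : rpw F 1 = F := by
  have := rpw_nat F hF 1
  rwa [Nat.cast_one, pow_one] at this

theorem rpw_add (F : MvPowerSeries I ℚ) (hF : constantCoeff F = 1) (α β : ℚ) :
    rpw F (α + β) = rpw F α * rpw F β := by
  have h1 : ∀ (n : ℕ) (α : ℚ), rpw F (α + n) = rpw F α * rpw F n := by
    intro n α
    refine B2_ext (f := fun α => rpw F (α + n)) (g := fun α => rpw F α * rpw F n)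
      (B2_comp (B2_rpw F) n) (B2_mul (B2_rpw F) (B2_const _)) (fun m => ?_) α
    show rpw F ((m : ℚ) + n) = rpw F m * rpw F n
    rw [← Nat.cast_add, rpw_nat F hF, rpw_nat F hF, rpw_nat F hF, pow_add]
  refine B2_ext (f := fun β => rpw F (α + β)) (g := fun β => rpw F α * rpw F β) ?_
    (B2_mul (B2_const _) (B2_rpw F)) (fun m => h1 m α) β
  have := B2_comp (B2_rpw F) α
  simpa only [add_comm] using this

theorem rpw_const (F : MvPowerSeries I ℚ) (hF : constantCoeff F = 1) (α : ℚ) :
    constantCoeff (rpw F α) = 1 := by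
  rw [← coeff_zero_eq_constantCoeff_apply]
  show ∑ n ∈ Finset.range (∑ i, (0 : I →₀ ℕ) i + 1), Ring.choose α n * coeff 0 ((F - 1) ^ n) = 1
  simp

theorem rpw_one_left (α : ℚ) : rpw (1 : MvPowerSeries I ℚ) α = 1 :=
  B2_ext (f := fun α => rpw (1 : MvPowerSeries I ℚ) α) (g := fun _ => 1) (B2_rpw 1) (B2_const 1)
    (fun n => by
      show rpw (1 : MvPowerSeries I ℚ) n = 1
      rw [rpw_nat 1 (by simp), one_pow]) α

theorem rpw_mul_left (F G : MvPowerSeries I ℚ) (hF : constantCoeff F = 1)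
    (hG : constantCoeff G = 1) (α : ℚ) : rpw (F * G) α = rpw F α * rpw G α :=
  B2_ext (f := fun α => rpw (F * G) α) (g := fun α => rpw F α * rpw G α) (B2_rpw _)
    (B2_mul (B2_rpw F) (B2_rpw G)) (fun n => by
      show rpw (F * G) n = rpw F n * rpw G n
      rw [rpw_nat F hF, rpw_nat G hG, rpw_nat (F * G) (by rw [map_mul, hF, hG, one_mul]),
        mul_pow]) α

/-- `(F^α)' = α F^α (log F)'`. -/
theorem dD_rpw (a : I → I → ℕ) (l : I) (F : (MvPowerSeries I ℚ)ˣ)
    (hF : constantCoeff (F : MvPowerSeries I ℚ) = 1) (α : ℚ) :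
    dD a l (rpw (F : MvPowerSeries I ℚ) α) =
      C α * rpw (F : MvPowerSeries I ℚ) α * dlg a F l := by
  refine B2_ext (f := fun α => dD a l (rpw (F : MvPowerSeries I ℚ) α))
    (g := fun α => C α * rpw (F : MvPowerSeries I ℚ) α * dlg a F l)
    (B2_dD a l (B2_rpw _)) (B2_mul (B2_mul B2_C (B2_rpw _)) (B2_const _)) (fun n => ?_) α
  show dD a l (rpw (F : MvPowerSeries I ℚ) n) =
    C (n : ℚ) * rpw (F : MvPowerSeries I ℚ) n * dlg a F l
  rw [rpw_nat _ hF]
  cases n with
  | zero => simp [dD_one]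
  | succ n =>
    rw [dD_pow, dlg, map_natCast, pow_succ]
    have h : (F : MvPowerSeries I ℚ) * ((F⁻¹ : (MvPowerSeries I ℚ)ˣ) : MvPowerSeries I ℚ) = 1 :=
      F.mul_inv
    calc _ = ((n + 1 : ℕ) : MvPowerSeries I ℚ) * (F : MvPowerSeries I ℚ) ^ n *
          dD a l (F : MvPowerSeries I ℚ) * 1 := by ring
      _ = _ := by rw [← h]; ring

end Pool.Agent.H46.KA
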