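import Pool.Agent.H46.KA.B2

/-!
KAC ADE, module B2b: rational powers of power series with constant term 1.

`rpw F α = ∑_n (α choose n) (F - 1)^n`, truncated coefficientwise at `n ≤ |β|` (for `constantCoeff F = 1` the coefficient
at `β` of `(F - 1)^n` vanishes for `n > |β|`, so any larger truncation gives the same).
* `rpw_add`: Vandermonde `Ring.add_choose_eq`, both sides truncated at a large order.
* `rpw_nat`: binomial theorem (`Ring.choose_natCast`), or from `rpw_one` and `rpw_add`.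
* `dD_rpw`: `(n + 1) (α choose n+1) = α (α - 1 choose n)`; alternatively: for `α = n/m` use `(rpw F α)^m = F^n` and
  cancel (the ring is a domain of characteristic 0).
* `rpw_Fil`: `Fil` is closed under products, sums (see `KQFil`).
* `rpw_int`: `(α choose n) * (den α)^(2 n)` is an integer (`(p/q choose n) = p (p-q) ... (p-(n-1)q) / (q^n n!)`, and
  the primes `ℓ` not dividing `q` are harmless by `ℓ`-adic continuity; a convenient form in Mathlib may exist for
  `Ring.choose`; alternatively argue with the `m`-th root: integrality of `V` with `V^m = U^n`, coefficient by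
  coefficient: `m V_β ∈ ℤ[1/m]`-combination of products of lower coefficients).
-/

set_option autoImplicit false

namespace Pool.Agent.H46.KA

open scoped BigOperators
open MvPowerSeries Pool.Agent.H27.KAC

variable {I : Type} [Fintype I] [DecidableEq I]

/-! ### auxiliary statements -/

/-- `n! (r choose n) = r (r - 1) ... (r - n + 1)`. -/
theorem B2b_choose {R : Type} [CommRing R] [BinomialRing R] (r : R) (n : ℕ) :
    ((n.factorial : ℕ) : R) * Ring.choose r n = ∏ j ∈ Finset.range n, (r - (j : R)) := by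
  rw [← nsmul_eq_mul, ← Ring.descPochhammer_eq_factorial_smul_choose]
  induction n with
  | zero => simp
  | succ n ih =>
    rw [descPochhammer_succ_right, Polynomial.smeval_mul, ih, Finset.prod_range_succ,
      Polynomial.smeval_sub, Polynomial.smeval_X, Polynomial.smeval_natCast, pow_one, pow_zero,
      nsmul_eq_mul, mul_one]

/-- the part of `N` which is prime to `q`. -/
theorem B2b_split (q : ℕ) : ∀ N : ℕ, 0 < N → ∃ A B k : ℕ, N = A * B ∧ A.Coprime q ∧ B ∣ q ^ k := by
  intro N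
  induction N using Nat.strong_induction_on with
  | _ N ih =>
    intro hN
    by_cases h : N.Coprime q
    · exact ⟨N, 1, 0, (mul_one N).symm, h, one_dvd _⟩
    · obtain ⟨N', hN'⟩ := Nat.gcd_dvd_left N q
      have hg : 1 < Nat.gcd N q := by
        have h1 : 0 < Nat.gcd N q := Nat.gcd_pos_of_pos_left q hN
        have h2 : Nat.gcd N q ≠ 1 := h
        omega
      have hN0 : 0 < N' := by
        rcases Nat.eq_zero_or_pos N' with h0 | h0
        · rw [h0, mul_zero] at hN'
          omega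
        · exact h0
      have hlt : N' < N := by
        have h3 : 1 * N' < Nat.gcd N q * N' := Nat.mul_lt_mul_of_pos_right hg hN0
        rw [← hN'] at h3
        omega
      obtain ⟨A, B, k, h1, h2, h3⟩ := ih N' hlt hN0
      refine ⟨A, Nat.gcd N q * B, k + 1, ?_, h2, ?_⟩
      · calc N = Nat.gcd N q * N' := hN'
          _ = Nat.gcd N q * (A * B) := by rw [← h1]
          _ = A * (Nat.gcd N q * B) := by ring
      · rw [pow_succ']
        exact Nat.mul_dvd_mul (Nat.gcd_dvd_right N q) h3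

/-- the product `p (p - q) ... (p - (n - 1) q)` is divisible by the part of `n!` prime to `q`. -/
theorem B2b_dvd (p : ℤ) (q n A : ℕ) (hA : A.Coprime q) (hn : A ∣ n.factorial) :
    (A : ℤ) ∣ ∏ j ∈ Finset.range n, (p - (j : ℤ) * q) := by
  have hco : IsCoprime (q : ℤ) (A : ℤ) := Nat.isCoprime_iff_coprime.2 hA.symm
  obtain ⟨v, u, huv⟩ := hco
  rw [← ZMod.intCast_zmod_eq_zero_iff_dvd]
  have hv : ((q : ℤ) : ZMod A) * (v : ZMod A) = 1 := by
    have h1 := congrArg (fun z : ℤ => (z : ZMod A)) huv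
    push_cast at h1
    rw [ZMod.natCast_self, mul_zero, add_zero] at h1
    push_cast
    rw [mul_comm]
    exact h1
  have h1 := B2b_choose (v * p : ℤ) n
  have h2 : ((∏ j ∈ Finset.range n, (v * p - (j : ℤ)) : ℤ) : ZMod A) = 0 := by
    rw [← h1]
    push_cast
    rw [(ZMod.natCast_eq_zero_iff _ _).2 hn, zero_mul]
  have h3 : ∀ j : ℕ, ((p - (j : ℤ) * q : ℤ) : ZMod A) =
      ((q : ℤ) : ZMod A) * ((v * p - (j : ℤ) : ℤ) : ZMod A) := by
    intro j
    push_cast
    push_cast at hv
    linear_combination (-(p : ZMod A)) * hv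
  rw [Int.cast_prod] at h2 ⊢
  rw [Finset.prod_congr rfl (fun j _ => h3 j), Finset.prod_mul_distrib, h2, mul_zero]

/-- a power of the denominator of `α` times `α choose n` is an integer. -/
theorem B2b_choose_int (α : ℚ) (n : ℕ) :
    ∃ (k : ℕ) (z : ℤ), (α.den : ℚ) ^ k * Ring.choose α n = z := by
  obtain ⟨A, B, k, hAB, hA, b, hb⟩ := B2b_split α.den n.factorial n.factorial_pos
  obtain ⟨w, hw⟩ := B2b_dvd α.num α.den n A hA ⟨B, hAB⟩
  have hq : (α.den : ℚ) ≠ 0 := by exact_mod_cast α.den_ne_zero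
  have h1 := B2b_choose α n
  have h2 : (α.den : ℚ) ^ n * ∏ j ∈ Finset.range n, (α - (j : ℚ)) =
      ((∏ j ∈ Finset.range n, (α.num - (j : ℤ) * α.den) : ℤ) : ℚ) := by
    rw [Int.cast_prod]
    conv_lhs => rw [← Finset.card_range n, ← Finset.prod_const, Finset.card_range,
      ← Finset.prod_mul_distrib]
    refine Finset.prod_congr rfl fun j _ => ?_
    push_cast
    rw [mul_sub, Rat.den_mul_eq_num]
    ring
  rw [← h1, hw] at h2
  push_cast at h2
  have hf : ((n.factorial : ℕ) : ℚ) = A * B := by exact_mod_cast hAB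
  have hfac : ((n.factorial : ℕ) : ℚ) ≠ 0 := by exact_mod_cast n.factorial_ne_zero
  have hA0 : (A : ℚ) ≠ 0 := by
    intro h0
    rw [hf, h0, zero_mul] at hfac
    exact hfac rfl
  rw [hf] at h2
  have h4 : (B : ℚ) * ((α.den : ℚ) ^ n * Ring.choose α n) = w := by
    apply mul_left_cancel₀ hA0
    linear_combination h2
  have h5 : (α.den : ℚ) ^ k = B * b := by exact_mod_cast hb
  refine ⟨n + k, b * w, ?_⟩
  rw [pow_add, h5]
  push_cast
  linear_combination (b : ℚ) * h4

/-- sums of numbers with denominators powers of `q`. -/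
theorem B2b_sum {ι : Type} (q : ℕ) (s : Finset ι) (f : ι → ℚ)
    (h : ∀ i ∈ s, ∃ (k : ℕ) (z : ℤ), (q : ℚ) ^ k * f i = z) :
    ∃ (k : ℕ) (z : ℤ), (q : ℚ) ^ k * ∑ i ∈ s, f i = z := by
  classical
  induction s using Finset.induction_on with
  | empty => exact ⟨0, 0, by simp⟩
  | insert i s hi ih =>
    obtain ⟨k1, z1, h1⟩ := h i (Finset.mem_insert_self i s)
    obtain ⟨k2, z2, h2⟩ := ih fun j hj => h j (Finset.mem_insert_of_mem hj)
    refine ⟨k1 + k2, (q : ℤ) ^ k2 * z1 + (q : ℤ) ^ k1 * z2, ?_⟩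
    rw [Finset.sum_insert hi, pow_add]
    push_cast
    linear_combination (q : ℚ) ^ k2 * h1 + (q : ℚ) ^ k1 * h2

/-- the coefficients of `(F - 1) ^ n` are integers. -/
theorem B2b_pow (F : MvPowerSeries I ℚ) (h : ∀ β, ∃ z : ℤ, MvPowerSeries.coeff β F = z) (n : ℕ)
    (β : I →₀ ℕ) : ∃ z : ℤ, MvPowerSeries.coeff β ((F - 1) ^ n) = (z : ℚ) := by
  choose g hg using h
  obtain ⟨G, hG⟩ : ∃ G : MvPowerSeries I ℤ, F = MvPowerSeries.map (Int.castRingHom ℚ) G := by
    refine ⟨(fun β => g β : (I →₀ ℕ) → ℤ), ?_⟩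
    ext β
    rw [hg]
    exact (MvPowerSeries.coeff_map (Int.castRingHom ℚ) β _).symm
  have h1 : (F - 1) ^ n = MvPowerSeries.map (Int.castRingHom ℚ) ((G - 1) ^ n) := by
    rw [map_pow, map_sub, map_one, ← hG]
  rw [h1, MvPowerSeries.coeff_map]
  exact ⟨_, rfl⟩

theorem rpw_Fil (a : I → I → ℕ) (x : I) (F : MvPowerSeries I ℚ) (hF : constantCoeff F = 1)
    (h : Fil a x 0 F) (α : ℚ) : Fil a x 0 (rpw F α) := by
  intro β hβ
  have h1 : MvPowerSeries.coeff β (rpw F α) = ∑ n ∈ Finset.range (∑ i, β i + 1),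
      Ring.choose α n * MvPowerSeries.coeff β ((F - 1) ^ n) := rfl
  rw [h1] at hβ
  obtain ⟨n, -, hne⟩ := Finset.exists_ne_zero_of_sum_ne_zero hβ
  have h2 := (h.sub (Fil_one a x)).pow n β (right_ne_zero_of_mul hne)
  rwa [mul_zero] at h2

theorem rpw_int (F : MvPowerSeries I ℚ) (hF : constantCoeff F = 1)
    (h : ∀ β, ∃ z : ℤ, MvPowerSeries.coeff β F = z) (α : ℚ) (β : I →₀ ℕ) :
    ∃ (n : ℕ) (z : ℤ), (α.den : ℚ) ^ n * MvPowerSeries.coeff β (rpw F α) = z := by
  have h1 : MvPowerSeries.coeff β (rpw F α) = ∑ n ∈ Finset.range (∑ i, β i + 1),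
      Ring.choose α n * MvPowerSeries.coeff β ((F - 1) ^ n) := rfl
  rw [h1]
  refine B2b_sum α.den _ _ fun n _ => ?_
  obtain ⟨k, z, hz⟩ := B2b_choose_int α n
  obtain ⟨y, hy⟩ := B2b_pow F h n β
  refine ⟨k, z * y, ?_⟩
  rw [hy, ← mul_assoc, hz]
  push_cast
  ring

end Pool.Agent.H46.KA
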