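import Pool.Agent.H46.KA.B1b
import Pool.Agent.H46.KA.B2

/-!
KAC ADE, module B3: laws of `Qp`, `mon`, `eta`, `lam`, the Q-system in `LL I`.

Everything follows from B1, B2, `uS_const`, `uS_rec`, `uS_zero`, `uS_one`.
`Qp a i k α = tm (k α e_i) * Tht a (rpw (uS a i k) α)`; `Df a i k l = Tht a (xv a i k l)`,
`xv a i k l = (if i = l then k else 0) + dlg a (uu a i k) l`.
Q-system: `uS_rec` multiplied by `t_i^(2(k+1))`; the product `∏_j Q_j^(a_ij)` has `t`-degree
`(k+1) ∑_j a_ij e_j`, and `X_i^(k+1)` on the left of `uS_rec` becomes `s_i^(k+1) t^(-(k+1) C e_i)`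
(`Tht_X`, `cart a j i = 2 δ - a j i`, symmetric).
-/

set_option autoImplicit false

namespace Pool.Agent.H46.KA

open scoped BigOperators
open MvPowerSeries Pool.Agent.H27.KAC

variable {I : Type} [Fintype I] [DecidableEq I]

omit [Fintype I] in
theorem B3_tm_if_zero (i : I) : (tm (fun j => if j = i then (0 : ℚ) else 0) : LL I) = 1 := by
  have h : (fun j => if j = i then (0 : ℚ) else 0) = (0 : I → ℚ) := by
    funext j
    simp
  rw [h, tm_zero]

theorem Qp_zero (a : I → I → ℕ) (i : I) (k : ℕ) : Qp a i k 0 = 1 := by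
  unfold Qp
  rw [rpw_zero _ (uS_const a i k), Tht_one, mul_zero, B3_tm_if_zero, mul_one]

theorem Qp_add (a : I → I → ℕ) (i : I) (k : ℕ) (α β : ℚ) :
    Qp a i k (α + β) = Qp a i k α * Qp a i k β := by
  unfold Qp
  have h : (fun j => if j = i then (k : ℚ) * (α + β) else 0) =
      (fun j => if j = i then (k : ℚ) * α else 0) + (fun j => if j = i then (k : ℚ) * β else 0) := by
    funext j
    by_cases hj : j = i
    · simp [hj, mul_add]
    · simp [hj]
  rw [rpw_add _ (uS_const a i k), Tht_mul, h, tm_add]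
  ring

theorem Qp_neg_mul (a : I → I → ℕ) (i : I) (k : ℕ) (α : ℚ) : Qp a i k (-α) * Qp a i k α = 1 := by
  rw [← Qp_add, neg_add_cancel, Qp_zero]

theorem Qp_nat_mul (a : I → I → ℕ) (i : I) (k : ℕ) (n : ℕ) (α : ℚ) :
    Qp a i k (n * α) = Qp a i k α ^ n := by
  induction n with
  | zero => rw [Nat.cast_zero, zero_mul, Qp_zero, pow_zero]
  | succ n ih =>
    rw [Nat.cast_succ, add_mul, one_mul, Qp_add, ih, pow_succ]

theorem Qp_level_zero (a : I → I → ℕ) (i : I) (α : ℚ) : Qp a i 0 α = 1 := by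
  unfold Qp
  rw [uS_zero, rpw_one_left, Tht_one, Nat.cast_zero, zero_mul, B3_tm_if_zero, mul_one]

theorem Qp_level_one (a : I → I → ℕ) (i : I) (α : ℚ) :
    Qp a i 1 α = tm (fun j => if j = i then α else 0) := by
  unfold Qp
  rw [uS_one, rpw_one_left, Tht_one, Nat.cast_one, one_mul, mul_one]

theorem B3_uu_level_zero (a : I → I → ℕ) (i : I) : uu a i 0 = 1 := by
  apply Units.ext
  rw [uu_coe, uS_zero, Units.val_one]

theorem B3_uu_level_one (a : I → I → ℕ) (i : I) : uu a i 1 = 1 := by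
  apply Units.ext
  rw [uu_coe, uS_one, Units.val_one]

theorem Df_level_zero (a : I → I → ℕ) (i l : I) : Df a i 0 l = 0 := by
  unfold Df xv
  rw [B3_uu_level_zero, dlg_one, Nat.cast_zero, ite_self, add_zero, Tht_zero]

theorem Df_level_one (a : I → I → ℕ) (i l : I) : Df a i 1 l = if i = l then 1 else 0 := by
  unfold Df xv
  rw [B3_uu_level_one, dlg_one, Nat.cast_one, add_zero]
  by_cases h : i = l
  · rw [if_pos h, if_pos h, Tht_one]
  · rw [if_neg h, if_neg h, Tht_zero]

/-- `d (Q^α) = α Q^α d log Q`. -/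
theorem th_Qp (a : I → I → ℕ) (l i : I) (k : ℕ) (α : ℚ) :
    th l (Qp a i k α) = qC α * Qp a i k α * Df a i k l := by
  have h1 : dD a l (rpw (uS a i k) α) = C α * rpw (uS a i k) α * dlg a (uu a i k) l := by
    have h := dD_rpw a l (uu a i k) (by rw [uu_coe]; exact uS_const a i k) α
    rw [uu_coe] at h
    exact h
  unfold Qp Df xv
  rw [th_mul, th_tm, th_Tht, h1, Tht_mul, Tht_mul, Tht_C, Tht_add]
  by_cases h : i = l
  · subst h
    rw [if_pos rfl, if_pos rfl]
    have hk : Tht a (k : MvPowerSeries I ℚ) = qC (k : ℚ) := by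
      rw [← Tht_C a (k : ℚ), map_natCast]
    rw [hk, qC_mul]
    ring
  · have h' : ¬ l = i := fun h2 => h h2.symm
    rw [if_neg h, if_neg h', Tht_zero, qC_zero]
    ring

theorem mon_zero (a : I → I → ℕ) : mon a 0 = 1 := by
  unfold mon
  exact Finsupp.prod_zero_index

theorem mon_single (a : I → I → ℕ) (i : I) (k : ℕ) (α : ℚ) :
    mon a (Finsupp.single (i, k) α) = Qp a i k α := by
  unfold mon
  exact Finsupp.prod_single_index (Qp_zero a i k)

theorem mon_add (a : I → I → ℕ) (E E' : (I × ℕ) →₀ ℚ) : mon a (E + E') = mon a E * mon a E' := by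
  unfold mon
  exact Finsupp.prod_add_index' (fun ik => Qp_zero a ik.1 ik.2)
    (fun ik α β => Qp_add a ik.1 ik.2 α β)

theorem mon_neg_mul (a : I → I → ℕ) (E : (I × ℕ) →₀ ℚ) : mon a (-E) * mon a E = 1 := by
  rw [← mon_add, neg_add_cancel, mon_zero]

theorem mon_nsmul (a : I → I → ℕ) (n : ℕ) (E : (I × ℕ) →₀ ℚ) : mon a (n • E) = mon a E ^ n := by
  induction n with
  | zero => rw [zero_smul, mon_zero, pow_zero]
  | succ n ih => rw [succ_nsmul, mon_add, ih, pow_succ]

theorem mon_sum (a : I → I → ℕ) {ι : Type} (s : Finset ι) (E : ι → (I × ℕ) →₀ ℚ) :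
    mon a (∑ j ∈ s, E j) = ∏ j ∈ s, mon a (E j) := by
  classical
  induction s using Finset.induction_on with
  | empty => rw [Finset.sum_empty, Finset.prod_empty, mon_zero]
  | insert j s hj ih => rw [Finset.sum_insert hj, Finset.prod_insert hj, mon_add, ih]

omit [Fintype I] [DecidableEq I] in
theorem B3_th_prod (l : I) {ι : Type} (s : Finset ι) (f g : ι → LL I)
    (h : ∀ j ∈ s, th l (f j) = f j * g j) :
    th l (∏ j ∈ s, f j) = (∏ j ∈ s, f j) * ∑ j ∈ s, g j := by
  classical
  induction s using Finset.induction_on with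
  | empty => rw [Finset.prod_empty, Finset.sum_empty, th_one, mul_zero]
  | insert j s hj ih =>
    have ih' := ih (fun j' hj' => h j' (Finset.mem_insert_of_mem hj'))
    rw [Finset.prod_insert hj, Finset.sum_insert hj, th_mul, ih', h j (Finset.mem_insert_self j s)]
    ring

theorem th_mon (a : I → I → ℕ) (l : I) (E : (I × ℕ) →₀ ℚ) :
    th l (mon a E) = mon a E * ∑ ik ∈ E.support, qC (E ik) * Df a ik.1 ik.2 l := by
  unfold mon Finsupp.prod
  refine B3_th_prod l E.support _ _ (fun ik _ => ?_)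
  rw [th_Qp]
  ring

end Pool.Agent.H46.KA
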