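import Pool.Agent.H46.KA.B3
import Pool.Agent.H46.KA.B2b

/-!
KAC ADE, module B4: regularity, FACT 2.

`Rg x F`: all `t_x`-exponents of `F` are natural numbers.  FACT 1: `Qp a x k n` (`n` natural) and `Qp a j k α` (`j ≠ x`, any
`α`) are regular (`uS_fil_self`, `uS_fil_ne`, `rpw_Fil`; the `t_x`-exponent of the monomial of `Tht a F` at `β` is
`-(C β)_x`, and `Fil a x r F` says `(C β)_x ≤ r`).
The forms `Df a j k`, `j ≠ x`, and `Qp a x k 1 * Df a x k` (`= d Q`, `th_Qp` with α = 1) are regular (`RF`): the component at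
`x` has positive exponents because `θ_x t_x^n = n t_x^n` (`xv_reg`, `xv_pole`, or directly).
FACT 2 (`fact2`): row `x` of the matrix has entries in `Rg1 x`, all other entries are in `Rg x`, so the determinant is in
`Rg1 x` (Laplace expansion along row `x`, `Matrix.det_apply` is fine too) and has no term `t^0`.
`fact2_pole`: with poles `Df a x k`, `k ∈ P`, and the factor `∏_{k ∈ P} Q_{x,k}`: expand the determinant multilinearly in the
columns; a product of two columns with the same `Df a x k` vanishes, so each `Df a x k` occurs at most once and is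
multiplied by its own factor `Q_{x,k}`.
-/

set_option autoImplicit false

namespace Pool.Agent.H46.KA

open scoped BigOperators
open MvPowerSeries Pool.Agent.H27.KAC

variable {I : Type} [Fintype I] [DecidableEq I]

omit [Fintype I] [DecidableEq I] in
/-- the exponents of a product -/
private theorem B4_mul {F G : LL I} {β : I →₀ ℕ} {d : I → ℚ}
    (h : (MvPowerSeries.coeff β (F * G)).coeff d ≠ 0) :
    ∃ (β₁ : I →₀ ℕ) (d₁ : I → ℚ) (β₂ : I →₀ ℕ) (d₂ : I → ℚ),
      (MvPowerSeries.coeff β₁ F).coeff d₁ ≠ 0 ∧ (MvPowerSeries.coeff β₂ G).coeff d₂ ≠ 0 ∧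
      d₁ + d₂ = d := by
  classical
  rw [MvPowerSeries.coeff_mul, AddMonoidAlgebra.coeff_sum, Finsupp.finsetSum_apply] at h
  obtain ⟨p, -, hp⟩ := Finset.exists_ne_zero_of_sum_ne_zero h
  have h1 : d ∈ (MvPowerSeries.coeff p.1 F * MvPowerSeries.coeff p.2 G).coeff.support :=
    Finsupp.mem_support_iff.mpr hp
  have h2 := AddMonoidAlgebra.support_coeff_mul_subset _ _ h1
  obtain ⟨d₁, h3, d₂, h4, h5⟩ := Finset.mem_add.mp h2
  exact ⟨p.1, d₁, p.2, d₂, Finsupp.mem_support_iff.mp h3, Finsupp.mem_support_iff.mp h4, h5⟩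

/-- all exponents of `t_x` satisfy `P` -/
private def B4_SP (x : I) (P : ℚ → Prop) (F : LL I) : Prop :=
  ∀ (β : I →₀ ℕ) (d : I → ℚ), (MvPowerSeries.coeff β F).coeff d ≠ 0 → P (d x)

omit [Fintype I] [DecidableEq I] in
private theorem B4_SP_mul {x : I} {P Q R : ℚ → Prop} {F G : LL I} (hF : B4_SP x P F)
    (hG : B4_SP x Q G) (h : ∀ p q, P p → Q q → R (p + q)) : B4_SP x R (F * G) := by
  intro β d hd
  obtain ⟨β₁, d₁, β₂, d₂, h1, h2, h3⟩ := B4_mul hd
  rw [← h3]
  exact h _ _ (hF β₁ d₁ h1) (hG β₂ d₂ h2)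

omit [Fintype I] [DecidableEq I] in
private theorem B4_SP_add {x : I} {P : ℚ → Prop} {F G : LL I} (hF : B4_SP x P F)
    (hG : B4_SP x P G) : B4_SP x P (F + G) := by
  intro β d hd
  rw [map_add, AddMonoidAlgebra.coeff_add, Finsupp.add_apply] at hd
  by_cases h1 : (MvPowerSeries.coeff β F).coeff d = 0
  · rw [h1, zero_add] at hd
    exact hG β d hd
  · exact hF β d h1

omit [Fintype I] [DecidableEq I] in
private theorem B4_SP_neg {x : I} {P : ℚ → Prop} {F : LL I} (hF : B4_SP x P F) :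
    B4_SP x P (-F) := by
  intro β d hd
  refine hF β d ?_
  intro h
  apply hd
  rw [map_neg]
  show (-(MvPowerSeries.coeff β F)).coeff d = 0
  have h1 : (-(MvPowerSeries.coeff β F)).coeff d = -((MvPowerSeries.coeff β F).coeff d) := rfl
  rw [h1, h, neg_zero]

omit [Fintype I] [DecidableEq I] in
private theorem B4_SP_zero (x : I) (P : ℚ → Prop) : B4_SP x P (0 : LL I) := by
  intro β d hd
  exact absurd (by rw [map_zero]; rfl) hd

omit [Fintype I] [DecidableEq I] in
private theorem B4_SP_single (x : I) (P : ℚ → Prop) (d : I → ℚ) (r : ℚ) (hP : P (d x))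
    (e : I →₀ ℕ) :
    B4_SP x P (MvPowerSeries.monomial e (AddMonoidAlgebra.single d r) : LL I) := by
  classical
  intro β d' hd
  rw [MvPowerSeries.coeff_monomial] at hd
  split_ifs at hd with h1
  · have hd1 : (Finsupp.single d r) d' ≠ 0 := hd
    rw [Finsupp.single_apply] at hd1
    split_ifs at hd1 with h2
    · rw [← h2]
      exact hP
    · exact absurd rfl hd1
  · exact absurd rfl hd

omit [Fintype I] [DecidableEq I] in
private theorem B4_SP_th {x : I} {P : ℚ → Prop} {F : LL I} (hF : B4_SP x P F) (l : I) :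
    ∀ (β : I →₀ ℕ) (d : I → ℚ), (MvPowerSeries.coeff β (th l F)).coeff d ≠ 0 →
      P (d x) ∧ d l ≠ 0 := by
  intro β d hd
  have h1 : (MvPowerSeries.coeff β (th l F)).coeff d = d l * (MvPowerSeries.coeff β F).coeff d :=
    rfl
  rw [h1] at hd
  exact ⟨hF β d (right_ne_zero_of_mul hd), left_ne_zero_of_mul hd⟩

private theorem B4_SP_Tht (a : I → I → ℕ) {x : I} {r : ℤ} {F : MvPowerSeries I ℚ}
    (hF : Fil a x r F) : B4_SP x (fun q => ∃ z : ℤ, -r ≤ z ∧ q = z) (Tht a F) := by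
  intro β d hd
  have h1 : MvPowerSeries.coeff β (Tht a F) =
      AddMonoidAlgebra.single (dg a β) (MvPowerSeries.coeff β F) := rfl
  rw [h1] at hd
  have hd1 : (Finsupp.single (dg a β) (MvPowerSeries.coeff β F)) d ≠ 0 := hd
  rw [Finsupp.single_apply] at hd1
  split_ifs at hd1 with h2
  · have h3 := hF β hd1
    refine ⟨-(cw a β x), by linarith, ?_⟩
    rw [← h2]
    unfold dg
    push_cast
    rfl
  · exact absurd rfl hd1

omit [Fintype I] [DecidableEq I] in
private theorem B4_SP_tm (x : I) (d : I → ℚ) : B4_SP x (fun q => q = d x) (tm d : LL I) := by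
  unfold tm
  rw [← MvPowerSeries.monomial_zero_eq_C_apply]
  exact B4_SP_single x (fun q => q = d x) d 1 rfl 0

omit [Fintype I] [DecidableEq I] in
private theorem B4_SP_mono {x : I} {P Q : ℚ → Prop} {F : LL I} (hF : B4_SP x P F)
    (h : ∀ q, P q → Q q) : B4_SP x Q F := fun β d hd => h _ (hF β d hd)

/-- natural numbers -/
private def B4_N (q : ℚ) : Prop := ∃ n : ℕ, q = n

/-- positive natural numbers -/
private def B4_N1 (q : ℚ) : Prop := ∃ n : ℕ, q = (n : ℚ) + 1

private theorem B4_nat {z : ℤ} {q : ℚ} (hz : 0 ≤ z) (hq : q = z) : B4_N q := by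
  obtain ⟨n, rfl⟩ := Int.eq_ofNat_of_zero_le hz
  exact ⟨n, by rw [hq]; push_cast; rfl⟩

private theorem B4_nat1 {z : ℤ} {q : ℚ} (hz : 1 ≤ z) (hq : q = z) : B4_N1 q := by
  obtain ⟨n, hn⟩ := Int.eq_ofNat_of_zero_le (show 0 ≤ z - 1 by linarith)
  refine ⟨n, ?_⟩
  have h : z = (n : ℤ) + 1 := by linarith
  rw [hq, h]
  push_cast
  rfl

theorem Rg_zero (x : I) : Rg x (0 : LL I) := by
  exact B4_SP_zero x B4_N

theorem Rg_one (x : I) : Rg x (1 : LL I) := by
  rw [← qC_one]
  unfold qC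
  rw [← MvPowerSeries.monomial_zero_eq_C_apply]
  exact B4_SP_single x B4_N 0 1 ⟨0, by simp⟩ 0

theorem Rg_add {x : I} {F G : LL I} (hF : Rg x F) (hG : Rg x G) : Rg x (F + G) := by
  exact B4_SP_add (P := B4_N) hF hG

theorem Rg_neg {x : I} {F : LL I} (hF : Rg x F) : Rg x (-F) := by
  exact B4_SP_neg (P := B4_N) hF

theorem Rg_mul {x : I} {F G : LL I} (hF : Rg x F) (hG : Rg x G) : Rg x (F * G) := by
  refine B4_SP_mul (P := B4_N) (Q := B4_N) (R := B4_N) hF hG ?_
  rintro p q ⟨n, rfl⟩ ⟨m, rfl⟩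
  exact ⟨n + m, by push_cast; rfl⟩

theorem Rg_pow {x : I} {F : LL I} (hF : Rg x F) (n : ℕ) : Rg x (F ^ n) := by
  induction n with
  | zero =>
    rw [pow_zero]
    exact Rg_one x
  | succ n ih =>
    rw [pow_succ]
    exact Rg_mul ih hF

theorem Rg_sum {x : I} {ι : Type} (s : Finset ι) (f : ι → LL I) (h : ∀ i ∈ s, Rg x (f i)) :
    Rg x (∑ i ∈ s, f i) := by
  classical
  induction s using Finset.induction_on with
  | empty =>
    rw [Finset.sum_empty]
    exact Rg_zero x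
  | insert i s his ih =>
    rw [Finset.sum_insert his]
    exact Rg_add (h i (Finset.mem_insert_self i s))
      (ih (fun j hj => h j (Finset.mem_insert_of_mem hj)))

theorem Rg_prod {x : I} {ι : Type} (s : Finset ι) (f : ι → LL I) (h : ∀ i ∈ s, Rg x (f i)) :
    Rg x (∏ i ∈ s, f i) := by
  classical
  induction s using Finset.induction_on with
  | empty =>
    rw [Finset.prod_empty]
    exact Rg_one x
  | insert i s his ih =>
    rw [Finset.prod_insert his]
    exact Rg_mul (h i (Finset.mem_insert_self i s))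
      (ih (fun j hj => h j (Finset.mem_insert_of_mem hj)))

theorem Rg_qC (x : I) (r : ℚ) : Rg x (qC r : LL I) := by
  unfold qC
  rw [← MvPowerSeries.monomial_zero_eq_C_apply]
  exact B4_SP_single x B4_N 0 r ⟨0, by simp⟩ 0

theorem Rg_X (x i : I) : Rg x (X i : LL I) := by
  have h : (X i : LL I) = MvPowerSeries.monomial (Finsupp.single i 1)
      (AddMonoidAlgebra.single (0 : I → ℚ) (1 : ℚ)) := rfl
  rw [h]
  exact B4_SP_single x B4_N 0 1 ⟨0, by simp⟩ _

theorem Rg_th {x : I} {F : LL I} (hF : Rg x F) (l : I) : Rg x (th l F) := by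
  intro β d hd
  exact (B4_SP_th (P := B4_N) hF l β d hd).1

theorem Rg1_th {x : I} {F : LL I} (hF : Rg x F) : Rg1 x (th x F) := by
  intro β d hd
  obtain ⟨⟨n, hn⟩, h0⟩ := B4_SP_th (P := B4_N) hF x β d hd
  rw [hn] at h0
  have hn0 : n ≠ 0 := fun h => h0 (by rw [h, Nat.cast_zero])
  obtain ⟨m, rfl⟩ := Nat.exists_eq_succ_of_ne_zero hn0
  exact ⟨m, by rw [hn]; push_cast; rfl⟩

theorem Rg1_mul {x : I} {F G : LL I} (hF : Rg1 x F) (hG : Rg x G) : Rg1 x (F * G) := by
  refine B4_SP_mul (P := B4_N1) (Q := B4_N) (R := B4_N1)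
    hF hG ?_
  rintro p q ⟨n, rfl⟩ ⟨m, rfl⟩
  exact ⟨n + m, by push_cast; ring⟩

theorem Rg1_add {x : I} {F G : LL I} (hF : Rg1 x F) (hG : Rg1 x G) : Rg1 x (F + G) := by
  exact B4_SP_add (P := B4_N1) hF hG

theorem Rg1_zero (x : I) : Rg1 x (0 : LL I) := by
  exact B4_SP_zero x B4_N1

/-- FACT 1 -/
theorem Rg_Qp_ne (a : I → I → ℕ) (hs : ∀ i j, a i j = a j i) (x : I) (hx : a x x = 0) (j : I)
    (hj : j ≠ x) (k : ℕ) (α : ℚ) : Rg x (Qp a j k α) := by
  unfold Qp
  refine B4_SP_mul (P := fun q => q = 0) (Q := fun q => ∃ z : ℤ, -0 ≤ z ∧ q = z)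
    (R := B4_N) ?_
    (B4_SP_Tht a (rpw_Fil a x _ (uS_const a j k) (uS_fil_ne a hs x hx j hj k) α)) ?_
  · refine B4_SP_mono (B4_SP_tm x _) ?_
    intro q hq
    rw [hq, if_neg (Ne.symm hj)]
  · rintro p q rfl ⟨z, hz, rfl⟩
    rw [zero_add]
    exact B4_nat (by simpa using hz) rfl

theorem Rg_Qp_self (a : I → I → ℕ) (hs : ∀ i j, a i j = a j i) (x : I) (hx : a x x = 0)
    (k n : ℕ) : Rg x (Qp a x k (n : ℚ)) := by
  unfold Qp
  rw [rpw_nat _ (uS_const a x k)]
  refine B4_SP_mul (P := fun q => q = (k : ℚ) * n)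
    (Q := fun q => ∃ z : ℤ, -((n : ℤ) * k) ≤ z ∧ q = z) (R := B4_N) ?_
    (B4_SP_Tht a ((uS_fil_self a hs x hx k).pow n)) ?_
  · refine B4_SP_mono (B4_SP_tm x _) ?_
    intro q hq
    rw [hq, if_pos rfl]
  · rintro p q rfl ⟨z, hz, rfl⟩
    refine B4_nat (z := (n : ℤ) * k + z) (by linarith) ?_
    push_cast
    ring

theorem Rg_mon (a : I → I → ℕ) (hs : ∀ i j, a i j = a j i) (x : I) (hx : a x x = 0)
    (E : (I × ℕ) →₀ ℚ) (hE : ∀ k, ∃ n : ℕ, E (x, k) = n) : Rg x (mon a E) := by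
  unfold mon Finsupp.prod
  refine Rg_prod _ _ ?_
  rintro ⟨j, k⟩ -
  by_cases hj : j = x
  · subst hj
    obtain ⟨n, hn⟩ := hE k
    rw [hn]
    exact Rg_Qp_self a hs j hx k n
  · exact Rg_Qp_ne a hs x hx j hj k _

theorem RF_add {x : I} {v w : Fm I} (hv : RF x v) (hw : RF x w) : RF x (fun l => v l + w l) := by
  exact ⟨fun l => Rg_add (hv.1 l) (hw.1 l), Rg1_add hv.2 hw.2⟩

theorem RF_smul {x : I} {v : Fm I} (hv : RF x v) {F : LL I} (hF : Rg x F) :
    RF x (fun l => F * v l) := by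
  refine ⟨fun l => Rg_mul hF (hv.1 l), ?_⟩
  show Rg1 x (F * v x)
  rw [mul_comm]
  exact Rg1_mul hv.2 hF

theorem RF_zero (x : I) : RF x (fun _ => (0 : LL I)) := by
  exact ⟨fun _ => Rg_zero x, Rg1_zero x⟩

theorem RF_sum {x : I} {ι : Type} (s : Finset ι) (v : ι → Fm I) (h : ∀ i ∈ s, RF x (v i)) :
    RF x (fun l => ∑ i ∈ s, v i l) := by
  classical
  refine ⟨fun l => Rg_sum s _ (fun i hi => (h i hi).1 l), ?_⟩
  show Rg1 x (∑ i ∈ s, v i x)
  induction s using Finset.induction_on with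
  | empty =>
    rw [Finset.sum_empty]
    exact Rg1_zero x
  | insert i s his ih =>
    rw [Finset.sum_insert his]
    exact Rg1_add (h i (Finset.mem_insert_self i s)).2
      (ih (fun j hj => h j (Finset.mem_insert_of_mem hj)))

theorem RF_th {x : I} {F : LL I} (hF : Rg x F) : RF x (fun l => th l F) := by
  exact ⟨fun l => Rg_th hF l, Rg1_th hF⟩

theorem RF_Df_ne (a : I → I → ℕ) (hs : ∀ i j, a i j = a j i) (x : I) (hx : a x x = 0) (j : I)
    (hj : j ≠ x) (k : ℕ) : RF x (Df a j k) := by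
  have h := xv_reg a hs x hx j hj k
  have hx1 : Fil a x (-1) (xv a j k x) := h.2
  refine ⟨fun l => ?_, ?_⟩
  · have hl : Fil a x 0 (xv a j k l) := by
      by_cases hlx : l = x
      · rw [hlx]
        exact hx1.mono (by norm_num)
      · exact h.1 l hlx
    refine B4_SP_mono (B4_SP_Tht a hl) (Q := B4_N) ?_
    rintro q ⟨z, hz, hq⟩
    exact B4_nat (by simpa using hz) hq
  · refine B4_SP_mono (B4_SP_Tht a hx1) (Q := B4_N1) ?_
    rintro q ⟨z, hz, hq⟩
    exact B4_nat1 (by linarith) hq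

theorem RF_Q_Df (a : I → I → ℕ) (hs : ∀ i j, a i j = a j i) (x : I) (hx : a x x = 0) (k : ℕ) :
    RF x (fun l => Qp a x k 1 * Df a x k l) := by
  have h := RF_th (Rg_Qp_self a hs x hx k 1)
  have e : (fun l => th l (Qp a x k ((1 : ℕ) : ℚ))) = fun l => Qp a x k 1 * Df a x k l := by
    funext l
    rw [Nat.cast_one, th_Qp, qC_one, one_mul]
  rwa [e] at h

end Pool.Agent.H46.KA
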