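import Pool.Agent.H27.KAC.KQVan

/-!
KAC ADE: the ring `LL`.

`LL I` = power series in variables `s_i` over the ring of Laurent polynomials in variables `t_i` with RATIONAL
exponents.  `Tht a` is the substitution `Y_i = s_i ∏_j t_j^(-C_ij)`.  `Qp a i k α = (t_i^k U_ik)^α`.
`CT γ F` = coefficient of `s^γ t^0` (zero unless `γ` is a vector of natural numbers).
-/

namespace Pool.Agent.H46.KA

open scoped BigOperators
open MvPowerSeries Pool.Agent.H27.KAC

section

variable {I : Type}

/-- Laurent polynomials in `t` with rational exponents. -/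
abbrev TT (I : Type) : Type := AddMonoidAlgebra ℚ (I → ℚ)

/-- power series in `s` over `TT I`. -/
abbrev LL (I : Type) : Type := MvPowerSeries I (TT I)

/-- the monomial `t^d`. -/
noncomputable def tm (d : I → ℚ) : LL I := MvPowerSeries.C (AddMonoidAlgebra.single d (1 : ℚ))

/-- constants. -/
noncomputable def qC (r : ℚ) : LL I := MvPowerSeries.C (AddMonoidAlgebra.single (0 : I → ℚ) r)

/-- the derivation `t^d ↦ d_l t^d` of `TT I`. -/
noncomputable def thA (l : I) (p : TT I) : TT I :=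
  AddMonoidAlgebra.ofCoeff (Finsupp.onFinset p.coeff.support (fun d => d l * p.coeff d)
    (fun d h => by
      rw [Finsupp.mem_support_iff]
      intro h0
      exact h (by rw [h0, mul_zero])))

/-- the derivation `θ_l = t_l ∂/∂t_l` of `LL I`. -/
noncomputable def th (l : I) (F : LL I) : LL I := fun β => thA l (MvPowerSeries.coeff β F)

/-- coefficient of `s^γ t^0` for a vector `γ` of rational numbers. -/
noncomputable def CT (γ : I → ℚ) (F : LL I) : ℚ := by
  classical
  exact if h : ∃ n : I →₀ ℕ, ∀ i, (n i : ℚ) = γ i then (MvPowerSeries.coeff h.choose F).coeff 0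
    else 0

end

section

variable {I : Type} [Fintype I] [DecidableEq I]

/-- `-(C β)` as a rational vector. -/
def dg (a : I → I → ℕ) (β : I →₀ ℕ) (i : I) : ℚ := -((cw a β i : ℤ) : ℚ)

/-- the substitution `Y_i = s_i ∏_j t_j^(-C_ij)`. -/
noncomputable def Tht (a : I → I → ℕ) (F : MvPowerSeries I ℚ) : LL I :=
  fun β => AddMonoidAlgebra.single (dg a β) (MvPowerSeries.coeff β F)

/-- rational power of a power series with constant term `1`: `∑ n, (α choose n) (F - 1)^n`. -/
noncomputable def rpw (F : MvPowerSeries I ℚ) (α : ℚ) : MvPowerSeries I ℚ :=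
  fun β => ∑ n ∈ Finset.range (∑ i, β i + 1),
    Ring.choose α n * MvPowerSeries.coeff β ((F - 1) ^ n)

/-- `Q_{i,k}^α = (t_i^k U_{i,k})^α`. -/
noncomputable def Qp (a : I → I → ℕ) (i : I) (k : ℕ) (α : ℚ) : LL I :=
  tm (fun j => if j = i then (k : ℚ) * α else 0) * Tht a (rpw (uS a i k) α)

/-- the one-form `D_{i,k} = d log Q_{i,k}`, as the vector of its components. -/
noncomputable def Df (a : I → I → ℕ) (i : I) (k : ℕ) (l : I) : LL I := Tht a (xv a i k l)

/-- one-forms. -/
abbrev Fm (I : Type) : Type := I → LL I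

/-- matrix whose column `i` is the form `c i`. -/
noncomputable def cM (c : I → Fm I) : Matrix I I (LL I) := Matrix.of (fun l i => c i l)

/-- `CT` of `F` times the wedge of the forms `c i`. -/
noncomputable def CTd (γ : I → ℚ) (F : LL I) (c : I → Fm I) : ℚ := CT γ (F * (cM c).det)

/-- monomials in the `Q_{i,k}` with rational exponents. -/
noncomputable def mon (a : I → I → ℕ) (E : (I × ℕ) →₀ ℚ) : LL I :=
  E.prod (fun ik α => Qp a ik.1 ik.2 α)

/-- the exponents of `η_k^v = s^(k v) ∏_i Q_{i,k}^(-(C v)_i)` (without the factor `s^(k v)`). -/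
noncomputable def etE (a : I → I → ℕ) (k : ℕ) (v : I → ℚ) : (I × ℕ) →₀ ℚ :=
  ∑ i, Finsupp.single (i, k) (-∑ j, ((cart a i j : ℤ) : ℚ) * v j)

/-- `η_{x,k} = s_x^k ∏_i Q_{i,k}^(-C_ix)`. -/
noncomputable def eta (a : I → I → ℕ) (x : I) (k : ℕ) : LL I :=
  X x ^ k * mon a (etE a k (fun j => if j = x then 1 else 0))

/-- `λ_{x,k} = - d log η_{x,k} = ∑_i C_ix D_{i,k}`. -/
noncomputable def lam (a : I → I → ℕ) (x : I) (k : ℕ) (l : I) : LL I :=
  ∑ i, qC ((cart a i x : ℤ) : ℚ) * Df a i k l

/-- `F` is regular in `t_x`: all `t_x`-exponents are natural numbers. -/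
def Rg (x : I) (F : LL I) : Prop :=
  ∀ (β : I →₀ ℕ) (d : I → ℚ), (MvPowerSeries.coeff β F).coeff d ≠ 0 → ∃ n : ℕ, d x = n

/-- all `t_x`-exponents are positive natural numbers. -/
def Rg1 (x : I) (F : LL I) : Prop :=
  ∀ (β : I →₀ ℕ) (d : I → ℚ), (MvPowerSeries.coeff β F).coeff d ≠ 0 → ∃ n : ℕ, d x = (n : ℚ) + 1

/-- a form regular in `t_x`. -/
def RF (x : I) (v : Fm I) : Prop := (∀ l, Rg x (v l)) ∧ Rg1 x (v x)

/-- the coefficients of `F` have denominators dividing powers of `M`. -/
def IsInt (M : ℕ) (F : LL I) : Prop :=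
  ∀ (β : I →₀ ℕ) (d : I → ℚ), ∃ (n : ℕ) (z : ℤ),
    (M : ℚ) ^ n * (MvPowerSeries.coeff β F).coeff d = z

end

end Pool.Agent.H46.KA
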